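import Pool.Agent.helper66.FJT.Class

set_option autoImplicit false
set_option maxHeartbeats 400000

/-!
# Exponent homomorphisms of right-angled Artin groups
-/

namespace Pool.Agent.helper66.FJT

variable {V : Type} {Γ : SimpleGraph V}

open Classical in
variable (Γ) in
/-- the exponent of a generator -/
noncomputable def theta (v : V) : Raag Γ →* Multiplicative ℤ :=
  Raag.lift (fun w => if w = v then Multiplicative.ofAdd 1 else 1) (fun _ _ _ => Commute.all _ _)

theorem theta_self (v : V) : theta Γ v (gen Γ v) = Multiplicative.ofAdd 1 := by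
  simp [theta]

theorem theta_ne {v w : V} (h : w ≠ v) : theta Γ v (gen Γ w) = 1 := by
  simp [theta, h]

theorem theta_closure {v : V} {F : Set V} (hv : v ∉ F) {w : Raag Γ}
    (hw : w ∈ Subgroup.closure (gen Γ '' F)) : theta Γ v w = 1 := by
  have : Subgroup.closure (gen Γ '' F) ≤ (theta Γ v).ker := by
    rw [Subgroup.closure_le]
    rintro _ ⟨x, hx, rfl⟩
    exact theta_ne (fun h => hv (h ▸ hx))
  exact this hw

theorem exists_exponents {ι : Type} (L : ι → V) (s : Finset ι)
    (hL : ∀ i ∈ s, ∀ j ∈ s, L i = L j → i = j) (f : ι → ℤ) :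
    ∃ w ∈ Subgroup.closure (gen Γ '' {v | ∃ i ∈ s, v = L i}),
      ∀ i ∈ s, theta Γ (L i) w = Multiplicative.ofAdd (f i) := by
  classical
  induction s using Finset.induction_on with
  | empty => exact ⟨1, Subgroup.one_mem _, by simp⟩
  | insert a s ha ih =>
    obtain ⟨w, hw, hw'⟩ := ih (fun i hi j hj => hL i (Finset.mem_insert_of_mem hi) j
      (Finset.mem_insert_of_mem hj))
    have hle : Subgroup.closure (gen Γ '' {v | ∃ i ∈ s, v = L i}) ≤
        Subgroup.closure (gen Γ '' {v | ∃ i ∈ insert a s, v = L i}) := by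
      apply Subgroup.closure_mono
      apply Set.image_mono
      rintro v ⟨i, hi, rfl⟩
      exact ⟨i, Finset.mem_insert_of_mem hi, rfl⟩
    have hga : gen Γ (L a) ∈ Subgroup.closure (gen Γ '' {v | ∃ i ∈ insert a s, v = L i}) :=
      Subgroup.subset_closure (Set.mem_image_of_mem _ ⟨a, Finset.mem_insert_self a s, rfl⟩)
    refine ⟨(gen Γ (L a)) ^ (f a) * w, Subgroup.mul_mem _ (Subgroup.zpow_mem _ hga _)
      (hle hw), ?_⟩
    intro i hi
    rw [map_mul, map_zpow]
    rcases Finset.mem_insert.1 hi with rfl | hi'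
    · have h1 : theta Γ (L i) w = 1 := by
        refine theta_closure ?_ hw
        rintro ⟨j, hj, e⟩
        have := hL i hi j (Finset.mem_insert_of_mem hj) e
        subst this
        exact ha hj
      rw [h1, theta_self, mul_one, ← ofAdd_zsmul]
      simp
    · have h1 : L a ≠ L i := by
        intro e
        have := hL a (Finset.mem_insert_self a s) i hi e
        subst this
        exact ha hi'
      rw [theta_ne h1, one_zpow, one_mul, hw' i hi']

theorem eq_one_of_exponents (s : Finset V)
    (hs : ∀ v ∈ s, ∀ w ∈ s, v ≠ w → Γ.Adj v w) {w : Raag Γ}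
    (hw : w ∈ Subgroup.closure (gen Γ '' (s : Set V)))
    (h : ∀ v ∈ s, theta Γ v w = 1) : w = 1 := by
  classical
  induction s using Finset.induction_on generalizing w with
  | empty => simpa using hw
  | insert a s ha ih =>
    have hcomm : ∀ x ∈ Subgroup.closure (gen Γ '' (s : Set V)), Commute (gen Γ a) x := by
      intro x hx
      have hle : Subgroup.closure (gen Γ '' (s : Set V)) ≤ Subgroup.centralizer {gen Γ a} := by
        rw [Subgroup.closure_le]
        rintro _ ⟨v, hv, rfl⟩
        rw [SetLike.mem_coe, Subgroup.mem_centralizer_iff]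
        rintro y rfl
        exact gen_commute (hs a (Finset.mem_insert_self a s) v (Finset.mem_insert_of_mem hv)
          (fun e => ha (e ▸ hv)))
      exact (Subgroup.mem_centralizer_iff.1 (hle hx)) _ rfl
    have key : ∃ n : ℤ, ∃ w' ∈ Subgroup.closure (gen Γ '' (s : Set V)), w = gen Γ a ^ n * w' := by
      clear h
      induction hw using Subgroup.closure_induction with
      | mem x hx =>
        obtain ⟨v, hv, rfl⟩ := hx
        rcases Finset.mem_insert.1 hv with rfl | hv'
        · exact ⟨1, 1, Subgroup.one_mem _, by simp⟩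
        · exact ⟨0, _, Subgroup.subset_closure ⟨v, hv', rfl⟩, by simp⟩
      | one => exact ⟨0, 1, Subgroup.one_mem _, by simp⟩
      | mul x y _ _ hx hy =>
        obtain ⟨n, w1, h1, rfl⟩ := hx
        obtain ⟨m, w2, h2, rfl⟩ := hy
        refine ⟨n + m, w1 * w2, Subgroup.mul_mem _ h1 h2, ?_⟩
        have := ((hcomm w1 h1).zpow_left m).eq
        rw [zpow_add, mul_assoc, mul_assoc, ← mul_assoc w1, ← this, mul_assoc]
      | inv x _ hx =>
        obtain ⟨n, w1, h1, rfl⟩ := hx
        refine ⟨-n, w1⁻¹, Subgroup.inv_mem _ h1, ?_⟩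
        have := ((hcomm _ (Subgroup.inv_mem _ h1)).zpow_left (-n)).eq
        rw [this, mul_inv_rev, zpow_neg]
    obtain ⟨n, w', hw', rfl⟩ := key
    have h1 := h a (Finset.mem_insert_self a s)
    rw [map_mul, map_zpow, theta_self, theta_closure (by simpa using ha) hw', mul_one,
      ← ofAdd_zsmul] at h1
    have hn : n = 0 := by simpa using h1
    subst hn
    rw [zpow_zero, one_mul] at h ⊢
    exact ih (fun v hv w hw => hs v (Finset.mem_insert_of_mem hv) w (Finset.mem_insert_of_mem hw))
      hw' (fun v hv => h v (Finset.mem_insert_of_mem hv))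

end Pool.Agent.helper66.FJT
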