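import Pool.Agent.helper66.FJT.Connect
import Pool.Agent.helper66.FJT.RaagExp

set_option autoImplicit false
set_option maxHeartbeats 400000

/-!
# How products of commuting transports act; injectivity on such products
-/

namespace Pool.Agent.helper66.FJT

open Topology Filter

variable {X : Type} [TopologicalSpace X] {T : X ≃ₜ X}

theorem perm_zpow_mem_iff {g : Equiv.Perm X} {A : Set X} (hg : ∀ x, g x ∈ A ↔ x ∈ A) (n : ℤ)
    (x : X) : (g ^ n) x ∈ A ↔ x ∈ A := by
  induction n using Int.induction_on generalizing x with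
  | zero => simp
  | succ n ih => rw [zpow_add_one, Equiv.Perm.mul_apply, ih, hg]
  | pred n ih =>
    rw [zpow_sub_one, Equiv.Perm.mul_apply, ih, ← hg, perm_apply_inv]

section

variable {B : Set X} (hB : Good T B)

theorem tauPerm_mem_iff {A : Set X} (hA : IsLine T B A) (x : X) :
    tauPerm hB hA x ∈ A ↔ x ∈ A := by
  by_cases hx : x ∈ A
  · exact ⟨fun _ => hx, fun _ => tauPerm_mem hB hA hx⟩
  · rw [tauPerm_of_not_mem hB hA hx]

theorem tauPerm_image {A : Set X} (hA : IsLine T B A) {C : Set X} (h : C = A ∨ Disjoint C A) :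
    tauPerm hB hA '' C = C := by
  rcases h with rfl | h
  · ext x
    constructor
    · rintro ⟨y, hy, rfl⟩
      exact tauPerm_mem hB hA hy
    · intro hx
      exact ⟨_, tauPerm_symm_mem hB hA hx, Equiv.apply_symm_apply _ _⟩
  · have : ∀ x ∈ C, tauPerm hB hA x = x := fun x hx =>
      tauPerm_of_not_mem hB hA (Set.disjoint_left.1 h hx)
    ext x
    constructor
    · rintro ⟨y, hy, rfl⟩
      rw [this y hy]; exact hy
    · intro hx
      exact ⟨x, hx, this x hx⟩

/-- the image in the full group, as a permutation -/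
noncomputable def piV : Raag (lineGraph T B) →* Equiv.Perm X :=
  ((FG T).subtype.comp (piB hB)).comp SemidirectProduct.inl

theorem piV_gen (v : Line T B) : piV hB (gen _ v) = tauPerm hB v.2 := by
  change (piB hB (SemidirectProduct.inl (gen _ v))).1 = _
  rw [piB_gen]
  rfl

theorem piV_apply_of_mem {F : Set (Line T B)}
    (hF : ∀ v ∈ F, ∀ w ∈ F, v ≠ w → Disjoint v.1 w.1) {w : Raag (lineGraph T B)}
    (hw : w ∈ Subgroup.closure (gen _ '' F)) (v : Line T B) (hv : v ∈ F) (x : X) (hx : x ∈ v.1) :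
    piV hB w x = (tauPerm hB v.2 ^ (Multiplicative.toAdd (theta _ v w))) x := by
  have hmem := perm_zpow_mem_iff (tauPerm_mem_iff hB v.2)
  induction hw using Subgroup.closure_induction generalizing x with
  | mem y hy =>
    obtain ⟨u, hu, rfl⟩ := hy
    rw [piV_gen]
    by_cases h : u = v
    · subst h
      rw [theta_self]
      simp
    · rw [theta_ne h, tauPerm_of_not_mem hB u.2 (Set.disjoint_right.1 (hF u hu v hv h) hx)]
      simp
  | one => simp
  | mul a b _ _ ha hb =>
    rw [map_mul, Equiv.Perm.mul_apply, hb x hx, ha _ ((hmem _ _).2 hx), map_mul, toAdd_mul,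
      zpow_add, Equiv.Perm.mul_apply]
  | inv a _ ha =>
    rw [map_inv, Equiv.Perm.inv_eq_iff_eq, map_inv, toAdd_inv]
    rw [ha _ ((hmem _ _).2 hx), ← Equiv.Perm.mul_apply, ← zpow_add]
    simp

theorem piV_apply_of_not_mem {F : Set (Line T B)} {w : Raag (lineGraph T B)}
    (hw : w ∈ Subgroup.closure (gen _ '' F)) (x : X) (hx : ∀ v ∈ F, x ∉ v.1) :
    piV hB w x = x := by
  induction hw using Subgroup.closure_induction with
  | mem y hy =>
    obtain ⟨u, hu, rfl⟩ := hy
    rw [piV_gen]
    exact tauPerm_of_not_mem hB u.2 (hx u hu)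
  | one => simp
  | mul a b _ _ ha hb => rw [map_mul, Equiv.Perm.mul_apply, hb, ha]
  | inv a _ ha => rw [map_inv, Equiv.Perm.inv_eq_iff_eq, ha]

theorem piV_image {F : Set (Line T B)} {w : Raag (lineGraph T B)}
    (hw : w ∈ Subgroup.closure (gen _ '' F)) {C : Set X} (hC : ∀ v ∈ F, C = v.1 ∨ Disjoint C v.1) :
    piV hB w '' C = C := by
  induction hw using Subgroup.closure_induction with
  | mem y hy =>
    obtain ⟨u, hu, rfl⟩ := hy
    rw [piV_gen]
    exact tauPerm_image hB u.2 (hC u hu)
  | one => rw [map_one, Equiv.Perm.coe_one, Set.image_id]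
  | mul a b _ _ ha hb =>
    rw [map_mul, Equiv.Perm.coe_mul, Set.image_comp, hb, ha]
  | inv a _ ha =>
    rw [map_inv]
    have : ((piV hB a)⁻¹ : Equiv.Perm X) '' ((piV hB a : Equiv.Perm X) '' C) = C := by
      rw [← Set.image_comp, ← Equiv.Perm.coe_mul, inv_mul_cancel, Equiv.Perm.coe_one, Set.image_id]
    rwa [ha] at this

theorem tau_pow_pos {A : Set X} (hA : IsLine T B A) (n : ℕ) {x : X} (hx : x ∈ A) :
    ∃ m : ℕ, (tauPerm hB hA ^ (n + 1)) x = (T ^ ((m : ℤ) + 1)) x := by
  induction n generalizing x with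
  | zero =>
    obtain ⟨m, hm⟩ := tauPerm_pos hB hA hx
    exact ⟨m, by simpa using hm⟩
  | succ n ih =>
    obtain ⟨m, hm⟩ := tauPerm_pos hB hA hx
    obtain ⟨k, hk⟩ := ih (tauPerm_mem hB hA hx)
    refine ⟨k + m + 1, ?_⟩
    rw [pow_succ, Equiv.Perm.mul_apply, hk, hm, ← pw_add]
    congr 2
    push_cast
    ring

theorem inj_on_family (haper : ∀ n : ℤ, n ≠ 0 → ∀ x : X, (T ^ n) x ≠ x)
    (F : Set (Line T B)) (hfin : F.Finite) (hF : ∀ v ∈ F, ∀ w ∈ F, v ≠ w → Disjoint v.1 w.1)
    {w : Raag (lineGraph T B)} (hw : w ∈ Subgroup.closure (gen _ '' F)) (s : SB T B)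
    (h : piB hB (SemidirectProduct.inl w * SemidirectProduct.inr s) = 1) :
    (SemidirectProduct.inl w * SemidirectProduct.inr s : GB T B) = 1 := by
  have h' : piV hB w * s.1 = 1 := by
    have := congrArg Subtype.val h
    rw [map_mul, piB_inr] at this
    exact this
  have hps : piV hB w = s.1⁻¹ := mul_eq_one_iff_eq_inv.1 h'
  have hbase : ∀ x, base T B (piV hB w x) = base T B x := by
    rw [hps]
    exact (s⁻¹).2.2
  have hw1 : w = 1 := by
    refine eq_one_of_exponents hfin.toFinset ?_ (by simpa using hw) ?_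
    · intro v hv u hu hne
      exact ⟨hne, hF v (by simpa using hv) u (by simpa using hu) hne⟩
    · intro v hv
      have hvF : v ∈ F := by simpa using hv
      by_contra hne
      set n := Multiplicative.toAdd (theta _ v w) with hn
      have hn0 : n ≠ 0 := by
        intro e
        apply hne
        rw [hn] at e
        exact Multiplicative.toAdd.injective (by simpa using e)
      obtain ⟨b, hb⟩ := hB.nonempty
      obtain ⟨x, hx, -⟩ := v.2.ex b hb
      have h1 := piV_apply_of_mem hB hF hw v hvF x hx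
      rw [← hn] at h1
      have h2 : (tauPerm hB v.2 ^ n) x = x := by
        refine v.2.uniq _ ((perm_zpow_mem_iff (tauPerm_mem_iff hB v.2) _ _).2 hx) _ hx ?_
        rw [← h1, hbase]
      have h3 : (tauPerm hB v.2 ^ (n.natAbs)) x = x := by
        rcases Int.natAbs_eq n with e | e
        · rw [e, zpow_natCast] at h2
          exact h2
        · rw [e, zpow_neg, Equiv.Perm.inv_eq_iff_eq] at h2
          rw [zpow_natCast] at h2
          exact h2.symm
      obtain ⟨m, hm⟩ := Nat.exists_eq_succ_of_ne_zero (Int.natAbs_ne_zero.2 hn0)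
      rw [hm] at h3
      obtain ⟨k, hk⟩ := tau_pow_pos hB v.2 m hx
      rw [Nat.succ_eq_add_one, hk] at h3
      exact haper _ (by omega) x h3
  subst hw1
  have hs1 : s = 1 := by
    apply Subtype.ext
    simpa using h'
  rw [hs1, map_one, map_one, mul_one]

end

end Pool.Agent.helper66.FJT
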