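import Pool.Agent.helper66.FJT.Raag

set_option autoImplicit false
set_option maxHeartbeats 400000

/-!
# Classes of groups closed under graph products, finite-index overgroups and directed colimits
-/

namespace Pool.Agent.helper66.FJT

/-- A class of (discrete) groups with some of the inheritance properties of the class of
Farrell-Jones groups. -/
structure Closed (P : ∀ (G : Type) [Group G], Prop) : Prop where
  /-- the infinite cyclic group -/
  int : P (Multiplicative ℤ)
  /-- overgroups of finite index -/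
  overgroup : ∀ (G : Type) [Group G] (H : Subgroup G), H.FiniteIndex → P H → P G
  /-- graph products over finite graphs -/
  graphProduct : ∀ (V : Type) [Finite V] (Γ : SimpleGraph V) (G : V → Type) [∀ v, Group (G v)],
    (∀ v, P (G v)) → P (GraphProduct Γ G)
  /-- directed colimits: `L` with the maps `φ i` is a colimit of the directed system `(G, f)` when
  the `φ i` are compatible with the `f i j`, jointly surjective, and an element of `G i` dies in
  `L` only if it dies in some `G j`. -/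
  colim : ∀ (ι : Type) [Preorder ι] [Nonempty ι] [IsDirectedOrder ι]
    (G : ι → Type) [∀ i, Group (G i)] (f : ∀ i j, i ≤ j → G i →* G j)
    (L : Type) [Group L] (φ : ∀ i, G i →* L),
    (∀ i x, f i i le_rfl x = x) →
    (∀ i j k (hij : i ≤ j) (hjk : j ≤ k) x, f j k hjk (f i j hij x) = f i k (hij.trans hjk) x) →
    (∀ i j (h : i ≤ j) x, φ j (f i j h x) = φ i x) →
    (∀ y : L, ∃ i x, φ i x = y) →
    (∀ i x, φ i x = 1 → ∃ j, ∃ h : i ≤ j, f i j h x = 1) →
    (∀ i, P (G i)) → P L

variable {P : ∀ (G : Type) [Group G], Prop}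

theorem Closed.iso (hP : Closed P) {G H : Type} [Group G] [Group H] (e : G ≃* H) (h : P G) : P H := by
  refine hP.colim Unit (fun _ => G) (fun _ _ _ => MonoidHom.id G) H (fun _ => e.toMonoidHom)
    (fun _ _ => rfl) (fun _ _ _ _ _ _ => rfl) (fun _ _ _ _ => rfl)
    (fun y => ⟨(), e.symm y, by simp⟩) (fun i x hx => ⟨(), le_rfl, ?_⟩) (fun _ => h)
  simpa using hx

theorem Closed.trivial (hP : Closed P) (G : Type) [Group G] [Subsingleton G] : P G := by
  have h := hP.graphProduct Empty ⊥ (fun _ => Multiplicative ℤ) (fun v => v.elim)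
  refine hP.iso (G := GraphProduct (⊥ : SimpleGraph Empty) (fun _ => Multiplicative ℤ)) ?_ h
  have hs : Subsingleton (GraphProduct (⊥ : SimpleGraph Empty) (fun _ => Multiplicative ℤ)) := by
    have h1 := closure_gen (Γ := (⊥ : SimpleGraph Empty))
    have h2 : Set.range (gen (⊥ : SimpleGraph Empty)) = ∅ := Set.range_eq_empty _
    rw [h2, Subgroup.closure_empty] at h1
    refine ⟨fun a b => ?_⟩
    have ha : a ∈ (⊥ : Subgroup (Raag (⊥ : SimpleGraph Empty))) := by rw [h1]; trivial
    have hb : b ∈ (⊥ : Subgroup (Raag (⊥ : SimpleGraph Empty))) := by rw [h1]; trivial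
    rw [Subgroup.mem_bot.1 ha, Subgroup.mem_bot.1 hb]
  exact ⟨⟨fun _ => 1, fun _ => 1, fun _ => Subsingleton.elim _ _, fun _ => Subsingleton.elim _ _⟩,
    fun _ _ => Subsingleton.elim _ _⟩

theorem Closed.finite (hP : Closed P) (G : Type) [Group G] [Finite G] : P G :=
  hP.overgroup G ⊥ inferInstance (hP.trivial _)

theorem Closed.union (hP : Closed P) {G : Type} [Group G] {ι : Type} [Preorder ι] [Nonempty ι]
    [IsDirectedOrder ι] (K : ι → Subgroup G) (hmono : Monotone K) (hsup : ∀ g, ∃ i, g ∈ K i)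
    (h : ∀ i, P (K i)) : P G := by
  refine hP.colim ι (fun i => K i) (fun i j hij => Subgroup.inclusion (hmono hij)) G
    (fun i => (K i).subtype) (fun _ _ => rfl) (fun _ _ _ _ _ _ => rfl) (fun _ _ _ _ => rfl)
    (fun y => ?_) (fun i x hx => ⟨i, le_rfl, ?_⟩) h
  · obtain ⟨i, hi⟩ := hsup y
    exact ⟨i, ⟨y, hi⟩, rfl⟩
  · exact Subtype.ext hx

theorem Closed.raag (hP : Closed P) {V : Type} [Finite V] (Γ : SimpleGraph V) : P (Raag Γ) :=
  hP.graphProduct V Γ _ (fun _ => hP.int)

section SD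

variable {V : Type} {Γ : SimpleGraph V} {S : Type} [Group S] [MulAction S V]
variable (hS : ∀ (s : S) (v w : V), Γ.Adj v w → Γ.Adj (s • v) (s • w))

theorem raagAut_mem_closure {Λ : Set V} {s : S} (hs : ∀ v ∈ Λ, s • v ∈ Λ) {x : Raag Γ}
    (hx : x ∈ Subgroup.closure (gen Γ '' Λ)) :
    raagAut hS s x ∈ Subgroup.closure (gen Γ '' Λ) := by
  induction hx using Subgroup.closure_induction with
  | mem x hx =>
    obtain ⟨v, hv, rfl⟩ := hx
    rw [raagAut_gen]
    exact Subgroup.subset_closure ⟨_, hs v hv, rfl⟩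
  | one => rw [map_one]; exact Subgroup.one_mem _
  | mul x y _ _ hx hy => rw [map_mul]; exact Subgroup.mul_mem _ hx hy
  | inv x _ hx => rw [map_inv]; exact Subgroup.inv_mem _ hx

/-- the subgroup of the semidirect product given by `H` and `Λ` -/
def subSD (H : Subgroup S) (Λ : Set V) (hinv : ∀ h ∈ H, ∀ v ∈ Λ, h • v ∈ Λ) :
    Subgroup (SD hS) where
  carrier := {u | u.left ∈ Subgroup.closure (gen Γ '' Λ) ∧ u.right ∈ H}
  one_mem' := ⟨Subgroup.one_mem _, Subgroup.one_mem _⟩
  mul_mem' := by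
    rintro a b ⟨ha, ha'⟩ ⟨hb, hb'⟩
    refine ⟨?_, Subgroup.mul_mem _ ha' hb'⟩
    rw [SemidirectProduct.mul_left]
    exact Subgroup.mul_mem _ ha (raagAut_mem_closure hS (hinv _ ha') hb)
  inv_mem' := by
    rintro a ⟨ha, ha'⟩
    refine ⟨?_, Subgroup.inv_mem _ ha'⟩
    rw [SemidirectProduct.inv_left]
    exact raagAut_mem_closure hS (hinv _ (Subgroup.inv_mem _ ha')) (Subgroup.inv_mem _ ha)

theorem Raag.range_map_subtype (Λ : Set V) :
    (Raag.map (Γ := Γ.induce Λ) (Δ := Γ) (fun v => (v : V)) (fun _ _ h => h)).range =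
      Subgroup.closure (gen Γ '' Λ) := by
  rw [MonoidHom.range_eq_map, ← closure_gen, MonoidHom.map_closure]
  congr 1
  ext x
  constructor
  · rintro ⟨_, ⟨v, rfl⟩, rfl⟩
    exact ⟨v, v.2, by simp⟩
  · rintro ⟨v, hv, rfl⟩
    exact ⟨_, ⟨⟨v, hv⟩, rfl⟩, by simp⟩

theorem subSD_mem (hP : Closed P) (H : Subgroup S) [Finite H] (Λ : Set V) (hΛ : Λ.Finite)
    (hinv : ∀ h ∈ H, ∀ v ∈ Λ, h • v ∈ Λ) : P (subSD hS H Λ hinv) := by
  haveI : Finite Λ := hΛ
  let π : subSD hS H Λ hinv →* H :=
    { toFun := fun u => ⟨u.1.right, u.2.2⟩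
      map_one' := rfl
      map_mul' := fun _ _ => rfl }
  have hfi : π.ker.FiniteIndex := inferInstance
  refine hP.overgroup _ π.ker hfi ?_
  let m := Raag.map (Γ := Γ.induce Λ) (Δ := Γ) (fun v => (v : V)) (fun _ _ h => h)
  have hm : ∀ n, m n ∈ Subgroup.closure (gen Γ '' Λ) := by
    intro n
    rw [← Raag.range_map_subtype]
    exact ⟨n, rfl⟩
  let ψ : Raag (Γ.induce Λ) →* π.ker :=
    { toFun := fun n => ⟨⟨SemidirectProduct.inl (m n), hm n, Subgroup.one_mem _⟩, rfl⟩
      map_one' := by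
        apply Subtype.ext; apply Subtype.ext
        simp
      map_mul' := fun a b => by
        apply Subtype.ext; apply Subtype.ext
        simp }
  refine hP.iso (MulEquiv.ofBijective ψ ⟨?_, ?_⟩) (hP.raag _)
  · intro a b hab
    have h1 := congrArg (fun u => u.1.1.left) hab
    exact Raag.map_subtype_injective Λ h1
  · rintro ⟨⟨u, hu1, hu2⟩, hu⟩
    rw [← Raag.range_map_subtype] at hu1
    obtain ⟨n, hn⟩ := hu1
    refine ⟨n, ?_⟩
    apply Subtype.ext; apply Subtype.ext
    have h2 : u.right = 1 := congrArg Subtype.val hu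
    apply SemidirectProduct.ext
    · exact hn
    · exact h2.symm

theorem SD_mem (hP : Closed P) (hlf : ∀ F : Set S, F.Finite → ((Subgroup.closure F : Subgroup S) : Set S).Finite) :
    P (SD hS) := by
  classical
  let ι := {p : Subgroup S × Set V // (p.1 : Set S).Finite ∧ p.2.Finite ∧
    ∀ h ∈ p.1, ∀ v ∈ p.2, h • v ∈ p.2}
  have key : ∀ (F : Set S) (W : Set V), F.Finite → W.Finite →
      ∃ i : ι, F ⊆ i.1.1 ∧ W ⊆ i.1.2 := by
    intro F W hF hW
    refine ⟨⟨(Subgroup.closure F, ⋃ h ∈ (Subgroup.closure F : Subgroup S), (h • ·) '' W),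
      hlf F hF, ?_, ?_⟩, Subgroup.subset_closure, ?_⟩
    · exact (hlf F hF).biUnion (fun h _ => hW.image _)
    · intro h hh v hv
      simp only [Set.mem_iUnion, Set.mem_image, exists_prop] at hv ⊢
      obtain ⟨k, hk, w, hw, rfl⟩ := hv
      exact ⟨h * k, Subgroup.mul_mem _ hh hk, w, hw, mul_smul _ _ _⟩
    · intro w hw
      simp only [Set.mem_iUnion, Set.mem_image, exists_prop]
      exact ⟨1, Subgroup.one_mem _, w, hw, one_smul _ _⟩
  haveI : Nonempty ι := by
    obtain ⟨i, -⟩ := key ∅ ∅ Set.finite_empty Set.finite_empty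
    exact ⟨i⟩
  haveI : IsDirectedOrder ι := by
    refine ⟨fun i j => ?_⟩
    obtain ⟨k, hk1, hk2⟩ := key ((i.1.1 : Set S) ∪ j.1.1) (i.1.2 ∪ j.1.2)
      (i.2.1.union j.2.1) (i.2.2.1.union j.2.2.1)
    refine ⟨k, ⟨fun x hx => hk1 (Or.inl hx), fun x hx => hk2 (Or.inl hx)⟩,
      ⟨fun x hx => hk1 (Or.inr hx), fun x hx => hk2 (Or.inr hx)⟩⟩
  refine hP.union (ι := ι) (fun i => subSD hS i.1.1 i.1.2 i.2.2.2) ?_ ?_ ?_
  · rintro i j ⟨h1, h2⟩ u ⟨hu1, hu2⟩
    exact ⟨Subgroup.closure_mono (Set.image_mono h2) hu1, h1 hu2⟩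
  · intro u
    have h1 : ∃ W : Set V, W.Finite ∧ u.left ∈ Subgroup.closure (gen Γ '' W) := by
      have hx : u.left ∈ Subgroup.closure (Set.range (gen Γ)) := by rw [closure_gen]; trivial
      generalize u.left = x at hx
      induction hx using Subgroup.closure_induction with
      | mem x hx =>
        obtain ⟨v, rfl⟩ := hx
        exact ⟨{v}, Set.finite_singleton v, Subgroup.subset_closure ⟨v, rfl, rfl⟩⟩
      | one => exact ⟨∅, Set.finite_empty, Subgroup.one_mem _⟩
      | mul x y _ _ hx hy =>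
        obtain ⟨W, hW, hx⟩ := hx
        obtain ⟨W', hW', hy⟩ := hy
        exact ⟨W ∪ W', hW.union hW', Subgroup.mul_mem _
          (Subgroup.closure_mono (Set.image_mono Set.subset_union_left) hx)
          (Subgroup.closure_mono (Set.image_mono Set.subset_union_right) hy)⟩
      | inv x _ hx =>
        obtain ⟨W, hW, hx⟩ := hx
        exact ⟨W, hW, Subgroup.inv_mem _ hx⟩
    obtain ⟨W, hW, h1⟩ := h1
    obtain ⟨i, hi1, hi2⟩ := key {u.right} W (Set.finite_singleton _) hW
    exact ⟨i, Subgroup.closure_mono (Set.image_mono hi2) h1, hi1 rfl⟩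
  · intro i
    haveI : Finite i.1.1 := i.2.1
    exact subSD_mem hS hP _ _ i.2.2.1 _

end SD

end Pool.Agent.helper66.FJT
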