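import Pool.Agent.helper66.FJT.Uniform

set_option autoImplicit false
set_option maxHeartbeats 400000

/-!
# The full group as a directed colimit
-/

namespace Pool.Agent.helper66.FJT

open Topology Filter

variable {X : Type} [TopologicalSpace X]

/-- a homeomorphism with a non-periodic point that lies in every nonempty closed invariant set -/
structure Sys (T : X ≃ₜ X) (x₀ : X) : Prop where
  aper : ∀ n : ℤ, n ≠ 0 → (T ^ n) x₀ ≠ x₀
  min : ∀ K : Set X, IsClosed K → K.Nonempty → T '' K = K → x₀ ∈ K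

variable {T : X ≃ₜ X} {x₀ : X}

theorem Sys.aper_all [T2Space X] (h : Sys T x₀) (n : ℤ) (hn : n ≠ 0) (x : X) : (T ^ n) x ≠ x := by
  intro hx
  set K : Set X := Set.range (fun k : ℤ => (T ^ k) x) with hK
  have hper : ∀ m : ℤ, (T ^ (n * m)) x = x := by
    intro m
    induction m using Int.induction_on with
    | zero => simp
    | succ m ih => rw [mul_add, mul_one, pw_add, hx, ih]
    | pred m ih =>
      rw [mul_sub, mul_one, sub_eq_add_neg, pw_add]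
      have : (T ^ (-n)) x = x := ((pw_eq_iff T n x x).1 hx).symm
      rw [this, ih]
  have hfin : K.Finite := by
    refine ((Set.finite_Icc (0 : ℤ) |n|).image (fun k : ℤ => (T ^ k) x)).subset ?_
    rintro _ ⟨k, rfl⟩
    refine ⟨k % n, ⟨Int.emod_nonneg k hn, (Int.emod_lt_abs k hn).le⟩, ?_⟩
    change (T ^ (k % n)) x = (T ^ k) x
    conv_rhs => rw [← Int.emod_add_mul_ediv k n, pw_add, hper]
  have hinv : T '' K = K := by
    ext y
    constructor
    · rintro ⟨_, ⟨k, rfl⟩, rfl⟩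
      refine ⟨1 + k, ?_⟩
      change (T ^ (1 + k)) x = _
      rw [pw_add, pw_one]
    · rintro ⟨k, rfl⟩
      refine ⟨(T ^ (k - 1)) x, ⟨k - 1, rfl⟩, ?_⟩
      rw [← pw_one T ((T ^ (k - 1)) x), ← pw_add]
      simp
  obtain ⟨k, hk⟩ := h.min K hfin.isClosed ⟨x, 0, by simp⟩ hinv
  have hk' : (T ^ k) x = x₀ := hk
  apply h.aper n hn
  rw [← hk', ← pw_add, add_comm, pw_add, hx]

theorem Sys.good [CompactSpace X] (h : Sys T x₀) {B : Set X} (hB : IsClopen B) (hx : x₀ ∈ B) :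
    Good T B := by
  have hcov : ∀ x : X, ∃ n : ℤ, (T ^ n) x ∈ B := by
    by_contra hne
    push Not at hne
    obtain ⟨y, hy⟩ := hne
    set K : Set X := ⋂ n : ℤ, (fun x => (T ^ n) x) ⁻¹' Bᶜ with hK
    have hmem : ∀ x, x ∈ K ↔ ∀ n : ℤ, (T ^ n) x ∉ B := by
      intro x
      rw [hK, Set.mem_iInter]
      rfl
    have hcl : IsClosed K := isClosed_iInter fun n =>
      hB.compl.isClosed.preimage (T ^ n).continuous
    have hinv : T '' K = K := by
      ext z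
      constructor
      · rintro ⟨w, hw, rfl⟩
        rw [hmem] at hw ⊢
        intro n
        rw [← pw_one T w, ← pw_add]
        exact hw _
      · intro hz
        refine ⟨T.symm z, ?_, T.apply_symm_apply z⟩
        rw [hmem] at hz ⊢
        intro n
        have h1 := hz (n - 1)
        rw [sub_eq_add_neg, pw_add] at h1
        exact h1
    have := h.min K hcl ⟨y, (hmem y).2 hy⟩ hinv
    exact (hmem x₀).1 this 0 (by simpa using hx)
  obtain ⟨t, ht⟩ := isCompact_univ.elim_finite_subcover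
    (fun n : ℤ => (fun x => (T ^ n) x) ⁻¹' B)
    (fun n => hB.isOpen.preimage (T ^ n).continuous)
    (fun x _ => Set.mem_iUnion.2 (hcov x))
  obtain ⟨R, hR⟩ : ∃ R : ℕ, ∀ n ∈ t, |n| ≤ (R : ℤ) := by
    refine ⟨∑ n ∈ t, n.natAbs, fun n hn => ?_⟩
    have := Finset.single_le_sum (f := fun n : ℤ => n.natAbs) (fun _ _ => Nat.zero_le _) hn
    have h2 : n.natAbs ≤ ∑ n ∈ t, n.natAbs := this
    have h3 : |n| = (n.natAbs : ℤ) := Int.abs_eq_natAbs n
    omega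
  have hbd : ∀ x : X, ∃ n : ℤ, |n| ≤ R ∧ (T ^ n) x ∈ B := by
    intro x
    have h1 := ht (Set.mem_univ x)
    simp only [Set.mem_iUnion] at h1
    obtain ⟨n, hn, hn'⟩ := h1
    exact ⟨n, hR n hn, hn'⟩
  refine ⟨hB, ⟨x₀, hx⟩, ⟨2 * R, fun x => ?_⟩, fun x => ?_⟩
  · obtain ⟨n, hn, hn'⟩ := hbd ((T ^ (-(R : ℤ))) x)
    have hn2 := abs_le.1 hn
    refine ⟨(R - n).toNat, by omega, ?_⟩
    rw [← pw_add] at hn'
    have : -(((R - n).toNat : ℕ) : ℤ) = n + -(R : ℤ) := by omega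
    rw [this]
    exact hn'
  · obtain ⟨n, hn, hn'⟩ := hbd ((T ^ ((R : ℤ) + 1)) x)
    have hn2 := abs_le.1 hn
    refine ⟨(n + R).toNat, ?_⟩
    rw [← pw_add] at hn'
    have : (((n + R).toNat : ℕ) : ℤ) + 1 = n + ((R : ℤ) + 1) := by omega
    rw [this]
    exact hn'

variable (T x₀) in
/-- the index set: good neighbourhoods of `x₀`, smaller is bigger -/
structure Nb : Type where
  /-- the set -/
  set : Set X
  good : Good T set
  mem : x₀ ∈ set

instance : Preorder (Nb T x₀) where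
  le a b := b.1 ⊆ a.1
  le_refl a := subset_rfl
  le_trans a b c h1 h2 := h2.trans h1

theorem Sys.nonempty_nb [CompactSpace X] (h : Sys T x₀) : Nonempty (Nb T x₀) :=
  ⟨⟨Set.univ, h.good isClopen_univ trivial, trivial⟩⟩

theorem Sys.directed_nb [CompactSpace X] (h : Sys T x₀) : IsDirectedOrder (Nb T x₀) :=
  ⟨fun a b => ⟨⟨a.1 ∩ b.1, h.good (a.2.clopen.inter b.2.clopen) ⟨a.3, b.3⟩,
    ⟨a.3, b.3⟩⟩, Set.inter_subset_left, Set.inter_subset_right⟩⟩

section Ev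

variable [CompactSpace X] [T2Space X] [TotallyDisconnectedSpace X] (h : Sys T x₀)
include h

theorem Sys.ev {p : X → Prop} (hp : ∀ᶠ z in 𝓝 x₀, p z) :
    ∀ᶠ B : Nb T x₀ in atTop, ∀ z ∈ B.1, p z := by
  haveI := h.nonempty_nb
  haveI := h.directed_nb
  obtain ⟨W, hW, hWo, hxW⟩ := mem_nhds_iff.1 hp
  obtain ⟨V, hV, hxV, hVW⟩ := compact_exists_isClopen_in_isOpen hWo hxW
  filter_upwards [eventually_ge_atTop (⟨V, h.good hV hxV, hxV⟩ : Nb T x₀)] with B hB z hz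
  exact hW (hVW (hB hz))

theorem Sys.ev_sep (R : ℤ) : ∀ᶠ B : Nb T x₀ in atTop, Sep T B.1 R := by
  have h1 : ∀ j ∈ Finset.Ioc 0 R, ∀ᶠ B : Nb T x₀ in atTop, ∀ z ∈ B.1, (T ^ j) z ∉ B.1 := by
    intro j hj
    have hj' := Finset.mem_Ioc.1 hj
    obtain ⟨O, O', hO, hO', hxO, hxO', hd⟩ := t2_separation (h.aper j (by omega))
    have h2 : ∀ᶠ z in 𝓝 x₀, (T ^ j) z ∈ O :=
      (T ^ j).continuous.continuousAt.eventually (hO.mem_nhds hxO)
    filter_upwards [h.ev h2, h.ev (hO'.mem_nhds hxO')] with B hB hB' z hz hz'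
    exact Set.disjoint_left.1 hd (hB z hz) (hB' _ hz')
  have h3 := (eventually_all_finset _).2 h1
  filter_upwards [h3] with B hB z hz j hj hj'
  exact hB j (Finset.mem_Ioc.2 ⟨hj, hj'⟩) z hz

theorem Sys.ev_image {g : Equiv.Perm X} (hg : g ∈ FG T) (b : ℤ) :
    ∃ c : ℤ, ∀ᶠ B : Nb T x₀ in atTop, g '' (U T B.1 b) = U T B.1 c := by
  obtain ⟨k, hk⟩ := hg.1 ((T ^ b) x₀)
  refine ⟨k + b, ?_⟩
  have h1 : ∀ᶠ z in 𝓝 x₀, g ((T ^ b) z) = (T ^ k) ((T ^ b) z) :=
    (T ^ b).continuous.continuousAt.eventually hk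
  filter_upwards [h.ev h1] with B hB
  ext x
  constructor
  · rintro ⟨y, hy, rfl⟩
    obtain ⟨z, hz, rfl⟩ := mem_U_iff.1 hy
    rw [hB z hz, ← pw_add]
    exact pow_mem_U.2 hz
  · intro hx
    obtain ⟨z, hz, rfl⟩ := mem_U_iff.1 hx
    refine ⟨(T ^ b) z, pow_mem_U.2 hz, ?_⟩
    rw [hB z hz, ← pw_add]

theorem Sys.ev_cut (B : Nb T x₀) (v : Line T B.1) :
    ∃ b : ℤ, ∀ᶠ B' : Nb T x₀ in atTop, ∀ hle : B'.1 ⊆ B.1,
      (cut B.2 B'.2 hle v).1 = U T B'.1 b := by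
  obtain ⟨y, hy, hby⟩ := v.2.ex x₀ B.3
  have e : (T ^ (ht T B.1 y : ℤ)) x₀ = y := by
    have h0 : (T ^ (ht T B.1 y : ℤ)) (base T B.1 y) = y := by
      unfold base
      rw [pw_cancel_neg]
    rwa [hby] at h0
  refine ⟨ht T B.1 y, ?_⟩
  have hc : Tendsto (fun z => (T ^ (ht T B.1 y : ℤ)) z) (𝓝 x₀) (𝓝 y) := by
    have := (T ^ (ht T B.1 y : ℤ)).continuous.tendsto x₀
    rwa [e] at this
  filter_upwards [h.ev (hc.eventually (v.2.clopen.isOpen.mem_nhds hy)),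
    h.ev (hc.eventually (B.2.ht_loc y))] with B' h1 h2 hle
  have h3 : ∀ z ∈ B'.1, base T B.1 ((T ^ (ht T B.1 y : ℤ)) z) = z := by
    intro z hz
    unfold base
    rw [h2 z hz, pw_neg_cancel]
  rw [cut_val]
  ext x
  constructor
  · rintro ⟨hx, hx'⟩
    have hx2 : base T B.1 x ∈ B'.1 := hx'
    rw [mem_U_iff]
    refine ⟨_, hx2, ?_⟩
    exact v.2.uniq _ hx _ (h1 _ hx2) (h3 _ hx2).symm
  · intro hx
    obtain ⟨z, hz, rfl⟩ := mem_U_iff.1 hx
    refine ⟨h1 z hz, ?_⟩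
    change base T B.1 _ ∈ B'.1
    rw [h3 z hz]
    exact hz

theorem Sys.normal_form (B : Nb T x₀) (u : GB T B.1) :
    ∃ R : ℤ, ∀ᶠ B' : Nb T x₀ in atTop, ∀ hle : B'.1 ⊆ B.1,
      ∃ w ∈ Subgroup.closure (gen (lineGraph T B'.1) '' fam T B'.1 R), ∃ s : SB T B'.1,
        conn B.2 B'.2 hle u = SemidirectProduct.inl w * SemidirectProduct.inr s := by
  induction u using SD.induction with
  | h1 =>
    refine ⟨0, Eventually.of_forall fun B' hle => ⟨1, Subgroup.one_mem _, 1, by simp⟩⟩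
  | hg u v ih =>
    obtain ⟨R, hR⟩ := ih
    obtain ⟨b, hb⟩ := h.ev_cut B v
    obtain ⟨c, hc⟩ := h.ev_image (piB B.2 u).2 b
    refine ⟨max R |c|, ?_⟩
    filter_upwards [hR, hb, hc, h.ev_sep (2 * max R |c|)] with B' h1 h2 h3 hsep hle
    obtain ⟨w, hw, s, hws⟩ := h1 hle
    have hg1 : piV B'.2 w * s.1 = (piB B.2 u).1 := by
      rw [← piB_conn B.2 B'.2 hle u, hws, map_mul, piB_inr]
      rfl
    have hwU : piV B'.2 w '' U T B'.1 c = U T B'.1 c :=
      piV_image B'.2 hw (fun v hv => fam_U hsep v (fam_mono _ (le_max_left _ _) hv)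
        (le_max_right _ _))
    have hsU : s.1 '' (cut B.2 B'.2 hle v).1 = U T B'.1 c := by
      rw [h2 hle]
      apply Set.image_injective.2 (piV B'.2 w).injective
      rw [hwU, ← Set.image_comp, ← Equiv.Perm.coe_mul, hg1, h3]
    refine ⟨w * gen _ (s • cut B.2 B'.2 hle v), Subgroup.mul_mem _
      (Subgroup.closure_mono (Set.image_mono (fam_mono _ (le_max_left _ _))) hw)
      (Subgroup.subset_closure (Set.mem_image_of_mem _ ⟨c, le_max_right _ _, hsU⟩)),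
      s * rem B.2 B'.2 hle v, ?_⟩
    rw [map_mul, hws, conn_gen, map_mul, map_mul, ← SD.conj_gen]
    group
  | hg' u v ih =>
    obtain ⟨R, hR⟩ := ih
    obtain ⟨b, hb⟩ := h.ev_cut B v
    obtain ⟨c, hc⟩ := h.ev_image (Subgroup.mul_mem _ (piB B.2 u).2
      (Subgroup.inv_mem _ (tauPerm_mem_FG B.2 v.2))) b
    refine ⟨max R |c|, ?_⟩
    filter_upwards [hR, hb, hc, h.ev_sep (2 * max R |c|)] with B' h1 h2 h3 hsep hle
    obtain ⟨w, hw, s, hws⟩ := h1 hle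
    have hg1 : piV B'.2 w * s.1 = (piB B.2 u).1 := by
      rw [← piB_conn B.2 B'.2 hle u, hws, map_mul, piB_inr]
      rfl
    have hwU : piV B'.2 w '' U T B'.1 c = U T B'.1 c :=
      piV_image B'.2 hw (fun v hv => fam_U hsep v (fam_mono _ (le_max_left _ _) hv)
        (le_max_right _ _))
    have hr : (rem B.2 B'.2 hle v).1 =
      (tauPerm B'.2 (cut B.2 B'.2 hle v).2)⁻¹ * tauPerm B.2 v.2 := rfl
    have hFF : tauPerm B'.2 (cut B.2 B'.2 hle v).2 '' (U T B'.1 b) = U T B'.1 b :=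
      tauPerm_image _ _ (Or.inl (h2 hle).symm)
    have hsU : (s * (rem B.2 B'.2 hle v)⁻¹).1 '' (cut B.2 B'.2 hle v).1 =
        U T B'.1 c := by
      rw [h2 hle]
      apply Set.image_injective.2 (piV B'.2 w).injective
      rw [hwU, ← Set.image_comp, ← Equiv.Perm.coe_mul]
      have e1 : piV B'.2 w * (s * (rem B.2 B'.2 hle v)⁻¹).1 =
          ((piB B.2 u).1 * (tauPerm B.2 v.2)⁻¹) *
            tauPerm B'.2 (cut B.2 B'.2 hle v).2 := by
        rw [Subgroup.coe_mul, Subgroup.coe_inv, hr, ← hg1]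
        group
      rw [e1, Equiv.Perm.coe_mul, Set.image_comp, hFF, h3]
    refine ⟨w * (gen _ ((s * (rem B.2 B'.2 hle v)⁻¹) • cut B.2 B'.2 hle v))⁻¹,
      Subgroup.mul_mem _
      (Subgroup.closure_mono (Set.image_mono (fam_mono _ (le_max_left _ _))) hw)
      (Subgroup.inv_mem _ (Subgroup.subset_closure (Set.mem_image_of_mem _
        ⟨c, le_max_right _ _, hsU⟩))),
      s * (rem B.2 B'.2 hle v)⁻¹, ?_⟩
    rw [map_mul, hws, map_inv, conn_gen, map_mul, map_inv, ← SD.conj_gen, map_mul, map_inv]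
    group
  | hs u s ih =>
    obtain ⟨R, hR⟩ := ih
    refine ⟨R, ?_⟩
    filter_upwards [hR] with B' h1 hle
    obtain ⟨w, hw, s', hws⟩ := h1 hle
    refine ⟨w, hw, s' * Subgroup.inclusion (SB_mono B.2 B'.2 hle) s, ?_⟩
    rw [map_mul, hws, conn_inr, map_mul, mul_assoc]

theorem Sys.kernel (B : Nb T x₀) (u : GB T B.1) (hu : piB B.2 u = 1) :
    ∃ B' : Nb T x₀, ∃ hle : B ≤ B', conn B.2 B'.2 hle u = 1 := by
  haveI := h.nonempty_nb
  haveI := h.directed_nb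
  obtain ⟨R, hR⟩ := h.normal_form B u
  obtain ⟨B', h1, h2, h3⟩ := (hR.and ((h.ev_sep (2 * R)).and (eventually_ge_atTop B))).exists
  refine ⟨B', h3, ?_⟩
  obtain ⟨w, hw, s, hws⟩ := h1 h3
  rw [hws]
  refine inj_on_family B'.2 h.aper_all (fam T B'.1 R) (fam_finite _ _) (fam_disjoint h2) hw s ?_
  rw [← hws, piB_conn, hu]

theorem Sys.bound (g : Equiv.Perm X) (hg : g ∈ FG T) :
    ∃ R : ℤ, 0 ≤ R ∧ ∀ x, ∃ k : ℤ, |k| ≤ R ∧ g x = (T ^ k) x := by
  choose k hk using hg.1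
  obtain ⟨t, ht⟩ := CompactSpace.elim_nhds_subcover (fun x => {y | g y = (T ^ k x) y}) hk
  refine ⟨∑ x ∈ t, |k x|, Finset.sum_nonneg fun _ _ => abs_nonneg _, fun x => ?_⟩
  have hx : x ∈ ⋃ x ∈ t, {y | g y = (T ^ k x) y} := by rw [ht]; trivial
  simp only [Set.mem_iUnion] at hx
  obtain ⟨y, hy, hxy⟩ := hx
  exact ⟨k y, Finset.single_le_sum (f := fun x => |k x|) (fun _ _ => abs_nonneg _) hy, hxy⟩

theorem Sys.surj (g : FG T) : ∃ B : Nb T x₀, ∃ u : GB T B.1, piB B.2 u = g := by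
  haveI := h.nonempty_nb
  haveI := h.directed_nb
  obtain ⟨R, hR, hg⟩ := h.bound g.1 g.2
  choose c hc using fun a : ℤ => g.2.1 ((T ^ a) x₀)
  have hcR : ∀ a, |c a| ≤ R := by
    intro a
    obtain ⟨k, hk, hk'⟩ := hg ((T ^ a) x₀)
    have h1 : g.1 ((T ^ a) x₀) = (T ^ c a) ((T ^ a) x₀) := (hc a).self_of_nhds
    rw [hk'] at h1
    have h2 : k = c a := by
      by_contra hne
      apply h.aper_all (k - c a) (by omega) ((T ^ a) x₀)
      rw [sub_eq_neg_add, pw_add, h1, pw_neg_cancel]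
    rwa [← h2]
  have h1 : ∀ a ∈ Finset.Icc (-R) R, ∀ᶠ B : Nb T x₀ in atTop, ∀ z ∈ B.1,
      g.1 ((T ^ a) z) = (T ^ (a + c a)) z := by
    intro a _
    have h2 : ∀ᶠ z in 𝓝 x₀, g.1 ((T ^ a) z) = (T ^ c a) ((T ^ a) z) :=
      (T ^ a).continuous.continuousAt.eventually (hc a)
    filter_upwards [h.ev h2] with B hB z hz
    rw [hB z hz, ← pw_add, add_comm]
  obtain ⟨B, hB1, hB2⟩ := (((eventually_all_finset _).2 h1).and (h.ev_sep (2 * R))).exists
  obtain ⟨u, hu⟩ := exists_lift B.2 hR hB2 g hg c hcR (fun a ha =>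
    hB1 a (Finset.mem_Icc.2 (abs_le.1 ha)))
  exact ⟨B, u, hu⟩

theorem Sys.FG_mem {P : ∀ (G : Type) [Group G], Prop} (hP : Closed P) : P (FG T) := by
  haveI := h.nonempty_nb
  haveI := h.directed_nb
  refine hP.colim (Nb T x₀) (fun B => GB T B.1) (fun B B' hle => conn B.2 B'.2 hle)
    (FG T) (fun B => piB B.2) ?_ ?_ ?_ ?_ ?_ ?_
  · intro B u
    exact conn_id B.2 u
  · intro B B' B'' h1 h2 u
    exact conn_trans B.2 B'.2 B''.2 h1 h2 u
  · intro B B' hle u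
    exact piB_conn B.2 B'.2 hle u
  · exact h.surj
  · exact h.kernel
  · intro B
    exact GB_mem B.2 hP

end Ev

end Pool.Agent.helper66.FJT
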