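import Pool.Agent.helper66.FJT.Groups

set_option autoImplicit false
set_option maxHeartbeats 400000

/-!
# The connecting maps
-/

namespace Pool.Agent.helper66.FJT

open Topology Filter

variable {X : Type} [TopologicalSpace X] {T : X ≃ₜ X}

section

variable {B B' : Set X} (hB : Good T B) (hB' : Good T B') (h : B' ⊆ B)
include hB hB' h

theorem base_base' (x : X) : base T B' (base T B x) = base T B' x := by
  induction x using hB.bwd_induction with
  | h1 x hx => rw [base_of_mem hx]
  | h2 x hx ih =>
    rw [hB.base_T hx, ih, hB'.base_T (fun h' => hx (h h'))]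

theorem base_nxt' (x : X) (hx : nxt T B x ∉ B') : base T B' (nxt T B x) = base T B' x := by
  induction x using hB.fwd_induction with
  | h1 x hx' =>
    rw [nxt_of_mem hx'] at hx ⊢
    exact hB'.base_T hx
  | h2 x hx' ih =>
    rw [hB.nxt_T hx'] at hx ⊢
    rw [ih hx, hB'.base_T (fun h' => hx' (h h'))]

theorem nxt_nxt' (x : X) (hx : nxt T B x ∈ B') : nxt T B' x = nxt T B x := by
  induction x using hB.fwd_induction with
  | h1 x hx' =>
    rw [nxt_of_mem hx'] at hx ⊢
    exact nxt_of_mem hx
  | h2 x hx' ih =>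
    rw [hB.nxt_T hx'] at hx ⊢
    rw [← ih hx, hB'.nxt_T (fun h' => hx' (h h'))]

theorem SB_mono : SB T B ≤ SB T B' := by
  rintro g ⟨hg, hg'⟩
  refine ⟨hg, fun x => ?_⟩
  rw [← base_base' hB hB' h (g x), hg', base_base' hB hB' h]

theorem IsLine.cut {A : Set X} (hA : IsLine T B A) : IsLine T B' (A ∩ {x | base T B x ∈ B'}) := by
  refine ⟨hA.clopen.inter (hB'.clopen.preimage hB.base_loc.continuous), ?_, ?_⟩
  · intro b hb
    obtain ⟨y, hy, rfl⟩ := hA.ex b (h hb)
    refine ⟨y, ⟨hy, hb⟩, ?_⟩
    rw [← base_base' hB hB' h, base_of_mem hb]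
  · rintro y ⟨hy, hy'⟩ z ⟨hz, hz'⟩ e
    replace hy' : base T B y ∈ B' := hy'
    replace hz' : base T B z ∈ B' := hz'
    rw [← base_base' hB hB' h y, ← base_base' hB hB' h z, base_of_mem hy', base_of_mem hz'] at e
    exact hA.uniq y hy z hz e

end

/-- the part of a line over a smaller set -/
def cut {B B' : Set X} (hB : Good T B) (hB' : Good T B') (h : B' ⊆ B) (v : Line T B) :
    Line T B' := ⟨v.1 ∩ {x | base T B x ∈ B'}, v.2.cut hB hB' h⟩

theorem cut_val {B B' : Set X} (hB : Good T B) (hB' : Good T B') (h : B' ⊆ B) (v : Line T B) :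
    (cut hB hB' h v).1 = v.1 ∩ {x | base T B x ∈ B'} := rfl

section

variable {B B' : Set X} (hB : Good T B) (hB' : Good T B') (h : B' ⊆ B)

theorem rem_mem (v : Line T B) :
    (tauPerm hB' (cut hB hB' h v).2)⁻¹ * tauPerm hB v.2 ∈ SB T B' := by
  refine ⟨Subgroup.mul_mem _ (Subgroup.inv_mem _ (tauPerm_mem_FG _ _)) (tauPerm_mem_FG _ _),
    fun x => ?_⟩
  rw [Equiv.Perm.mul_apply]
  change base T B' ((tauPerm hB' (cut hB hB' h v).2).symm (tauPerm hB v.2 x)) = _
  by_cases hx : x ∈ v.1
  · have hy := tauPerm_mem hB v.2 hx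
    have hby := base_tauPerm hB v.2 hx
    set y := tauPerm hB v.2 x with hydef
    by_cases hn : nxt T B x ∈ B'
    · have hyF : y ∈ (cut hB hB' h v).1 := ⟨hy, by
        change base T B y ∈ B'
        rw [hby]; exact hn⟩
      rw [base_tauPerm_symm hB' _ hyF]
      have h1 : base T B' y = nxt T B' x := by
        rw [← base_base' hB hB' h y, hby, base_of_mem hn, nxt_nxt' hB hB' h x hn]
      rw [h1, hB'.prv_nxt]
    · have hyF : y ∉ (cut hB hB' h v).1 := fun hc => hn (by
        have : base T B y ∈ B' := hc.2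
        rwa [hby] at this)
      rw [tauPerm_symm_of_not_mem hB' _ hyF, ← base_base' hB hB' h y, hby,
        base_nxt' hB hB' h x hn]
  · rw [tauPerm_of_not_mem hB v.2 hx, tauPerm_symm_of_not_mem hB' _ (fun hc => hx hc.1)]

/-- the remainder of the transport along a line -/
noncomputable def rem (v : Line T B) : SB T B' :=
  ⟨(tauPerm hB' (cut hB hB' h v).2)⁻¹ * tauPerm hB v.2, rem_mem hB hB' h v⟩

theorem rem_apply_of_not_mem (v : Line T B) {x : X} (hx : x ∉ v.1) :
    (rem hB hB' h v).1 x = x := by
  change (tauPerm hB' (cut hB hB' h v).2).symm (tauPerm hB v.2 x) = x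
  rw [tauPerm_of_not_mem hB v.2 hx, tauPerm_symm_of_not_mem hB' _ (fun hc => hx hc.1)]

theorem rem_commute (v w : Line T B) (hvw : Disjoint v.1 w.1) :
    Commute (rem hB hB' h v) (rem hB hB' h w) := by
  have : Commute (rem hB hB' h v).1 (rem hB hB' h w).1 := by
    apply Equiv.Perm.Disjoint.commute
    intro x
    by_cases hx : x ∈ v.1
    · exact Or.inr (rem_apply_of_not_mem hB hB' h w (Set.disjoint_left.1 hvw hx))
    · exact Or.inl (rem_apply_of_not_mem hB hB' h v hx)
  exact Subtype.ext this

theorem rem_smul_cut (v w : Line T B) (hvw : Disjoint v.1 w.1) :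
    rem hB hB' h v • cut hB hB' h w = cut hB hB' h w := by
  apply Subtype.ext
  rw [smul_val]
  have : ∀ x ∈ (cut hB hB' h w).1, (rem hB hB' h v).1 x = x := fun x hx =>
    rem_apply_of_not_mem hB hB' h v (Set.disjoint_right.1 hvw hx.1)
  ext x
  constructor
  · rintro ⟨y, hy, rfl⟩
    rw [this y hy]; exact hy
  · intro hx
    exact ⟨x, hx, this x hx⟩

theorem smul_cut (s : SB T B) (v : Line T B) :
    Subgroup.inclusion (SB_mono hB hB' h) s • cut hB hB' h v = cut hB hB' h (s • v) := by
  apply Subtype.ext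
  rw [smul_val, cut_val, cut_val, smul_val]
  change s.1 '' _ = _
  ext x
  constructor
  · rintro ⟨y, ⟨hy, hy'⟩, rfl⟩
    refine ⟨⟨y, hy, rfl⟩, ?_⟩
    change base T B (s.1 y) ∈ B'
    rw [s.2.2]; exact hy'
  · rintro ⟨⟨y, hy, rfl⟩, hx⟩
    refine ⟨y, ⟨hy, ?_⟩, rfl⟩
    have h1 : base T B (s.1 y) ∈ B' := hx
    rwa [s.2.2] at h1

theorem conj_rem (s : SB T B) (v : Line T B) :
    Subgroup.inclusion (SB_mono hB hB' h) s * rem hB hB' h v *
      (Subgroup.inclusion (SB_mono hB hB' h) s)⁻¹ = rem hB hB' h (s • v) := by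
  apply Subtype.ext
  change s.1 * ((tauPerm hB' (cut hB hB' h v).2)⁻¹ * tauPerm hB v.2) * s.1⁻¹ =
    (tauPerm hB' (cut hB hB' h (s • v)).2)⁻¹ * tauPerm hB (s • v).2
  have hs' : s.1 ∈ SB T B' := SB_mono hB hB' h s.2
  have e1 : s.1 * tauPerm hB v.2 * s.1⁻¹ = tauPerm hB (s • v).2 :=
    tauPerm_conj hB v.2 (s • v).2 s.2 rfl
  have e2 : s.1 * tauPerm hB' (cut hB hB' h v).2 * s.1⁻¹ =
      tauPerm hB' (cut hB hB' h (s • v)).2 :=
    tauPerm_conj hB' _ _ hs' (congrArg Subtype.val (smul_cut hB hB' h s v))
  rw [← e1, ← e2]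
  group

theorem inr_commute_gen {C : Set X} (s : SB T C) (v : Line T C) (hs : s • v = v) :
    Commute (SemidirectProduct.inr s : GB T C) (SemidirectProduct.inl (gen _ v)) := by
  have := SD.conj_gen (lineGraph_smul (T := T) C) s v
  rw [hs] at this
  exact mul_inv_eq_iff_eq_mul.1 this

/-- the connecting map -/
noncomputable def conn : GB T B →* GB T B' :=
  SD.lift _ (fun v => SemidirectProduct.inl (gen _ (cut hB hB' h v)) *
      SemidirectProduct.inr (rem hB hB' h v))
    (SemidirectProduct.inr.comp (Subgroup.inclusion (SB_mono hB hB' h)))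
    (by
      intro v w hvw
      have h1 : Commute (SemidirectProduct.inl (gen _ (cut hB hB' h v)) : GB T B')
          (SemidirectProduct.inl (gen _ (cut hB hB' h w))) := by
        refine (gen_commute ?_).map SemidirectProduct.inl
        refine ⟨?_, hvw.2.mono Set.inter_subset_left Set.inter_subset_left⟩
        intro e
        obtain ⟨b, hb⟩ := hB'.nonempty
        obtain ⟨y, hy, -⟩ := (cut hB hB' h v).2.ex b hb
        have hy2 : y ∈ (cut hB hB' h w).1 := by rw [← e]; exact hy
        exact Set.disjoint_left.1 hvw.2 hy.1 hy2.1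
      have h2 : Commute (SemidirectProduct.inr (rem hB hB' h v) : GB T B')
          (SemidirectProduct.inr (rem hB hB' h w)) :=
        (rem_commute hB hB' h v w hvw.2).map SemidirectProduct.inr
      have h3 := inr_commute_gen (rem hB hB' h v) (cut hB hB' h w)
        (rem_smul_cut hB hB' h v w hvw.2)
      have h4 := inr_commute_gen (rem hB hB' h w) (cut hB hB' h v)
        (rem_smul_cut hB hB' h w v hvw.2.symm)
      exact (h1.mul_right h4.symm).mul_left (h3.mul_right h2))
    (by
      intro s v
      have e1 := SD.conj_gen (lineGraph_smul (T := T) B')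
        (Subgroup.inclusion (SB_mono hB hB' h) s) (cut hB hB' h v)
      have e2 := congrArg (SemidirectProduct.inr (φ := raagAut (lineGraph_smul (T := T) B')))
        (conj_rem hB hB' h s v)
      rw [smul_cut] at e1
      rw [map_mul, map_mul, map_inv] at e2
      rw [← e1, ← e2, MonoidHom.comp_apply]
      group)

@[simp] theorem conn_gen (v : Line T B) :
    conn hB hB' h (SemidirectProduct.inl (gen _ v)) =
      SemidirectProduct.inl (gen _ (cut hB hB' h v)) * SemidirectProduct.inr (rem hB hB' h v) := by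
  simp [conn]

@[simp] theorem conn_inr (s : SB T B) :
    conn hB hB' h (SemidirectProduct.inr s) =
      SemidirectProduct.inr (Subgroup.inclusion (SB_mono hB hB' h) s) := by
  simp [conn]

theorem piB_conn (u : GB T B) : piB hB' (conn hB hB' h u) = piB hB u := by
  have : (piB hB').comp (conn hB hB' h) = piB hB := by
    apply SD.hom_ext
    · intro v
      rw [MonoidHom.comp_apply, conn_gen, map_mul, piB_gen, piB_inr, piB_gen]
      apply Subtype.ext
      change tauPerm hB' (cut hB hB' h v).2 *
        ((tauPerm hB' (cut hB hB' h v).2)⁻¹ * tauPerm hB v.2) = tauPerm hB v.2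
      group
    · intro s
      rw [MonoidHom.comp_apply, conn_inr, piB_inr, piB_inr]
      rfl
  exact DFunLike.congr_fun this u

end

theorem conn_id {B : Set X} (hB : Good T B) (u : GB T B) :
    conn hB hB (le_refl B) u = u := by
  have : conn hB hB (le_refl B) = MonoidHom.id _ := by
    apply SD.hom_ext
    · intro v
      have h1 : cut hB hB (le_refl B) v = v := by
        apply Subtype.ext
        rw [cut_val]
        exact Set.inter_eq_left.2 fun x _ => hB.base_mem x
      have h2 : rem hB hB (le_refl B) v = 1 := by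
        apply Subtype.ext
        change (tauPerm hB (cut hB hB (le_refl B) v).2)⁻¹ * tauPerm hB v.2 = 1
        rw [inv_mul_eq_one]
        congr 1
        exact congrArg Subtype.val h1
      rw [conn_gen, h1, h2, map_one, mul_one]
      rfl
    · intro s
      rw [conn_inr]
      rfl
  exact DFunLike.congr_fun this u

theorem conn_trans {B B' B'' : Set X} (hB : Good T B) (hB' : Good T B') (hB'' : Good T B'')
    (h : B' ⊆ B) (h' : B'' ⊆ B') (u : GB T B) :
    conn hB' hB'' h' (conn hB hB' h u) = conn hB hB'' (h'.trans h) u := by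
  have : (conn hB' hB'' h').comp (conn hB hB' h) = conn hB hB'' (h'.trans h) := by
    apply SD.hom_ext
    · intro v
      have h1 : cut hB' hB'' h' (cut hB hB' h v) = cut hB hB'' (h'.trans h) v := by
        apply Subtype.ext
        rw [cut_val, cut_val, cut_val]
        ext x
        constructor
        · rintro ⟨⟨h1, h2⟩, h3⟩
          refine ⟨h1, ?_⟩
          have h2' : base T B x ∈ B' := h2
          have h3' : base T B' x ∈ B'' := h3
          change base T B x ∈ B''
          rwa [← base_base' hB hB' h x, base_of_mem h2'] at h3'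
        · rintro ⟨h1, h2⟩
          have h2' : base T B x ∈ B'' := h2
          refine ⟨⟨h1, h' h2'⟩, ?_⟩
          change base T B' x ∈ B''
          rwa [← base_base' hB hB' h x, base_of_mem (h' h2')]
      have h2 : Subgroup.inclusion (SB_mono hB' hB'' h') (rem hB hB' h v) =
          (rem hB' hB'' h' (cut hB hB' h v))⁻¹ * rem hB hB'' (h'.trans h) v := by
        apply Subtype.ext
        change (tauPerm hB' (cut hB hB' h v).2)⁻¹ * tauPerm hB v.2 =
          ((tauPerm hB'' (cut hB' hB'' h' (cut hB hB' h v)).2)⁻¹ *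
            tauPerm hB' (cut hB hB' h v).2)⁻¹ *
          ((tauPerm hB'' (cut hB hB'' (h'.trans h) v).2)⁻¹ * tauPerm hB v.2)
        have h3 : tauPerm hB'' (cut hB' hB'' h' (cut hB hB' h v)).2 =
            tauPerm hB'' (cut hB hB'' (h'.trans h) v).2 := by
          congr 1
          exact congrArg Subtype.val h1
        rw [h3]
        group
      rw [MonoidHom.comp_apply, conn_gen, map_mul, conn_gen, conn_inr, conn_gen, h1, h2,
        map_mul, map_inv]
      group
    · intro s
      rw [MonoidHom.comp_apply, conn_inr, conn_inr, conn_inr]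
      rfl
  exact DFunLike.congr_fun this u

end Pool.Agent.helper66.FJT
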