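import Pool.Agent.helper66.FJT.Tower

set_option autoImplicit false
set_option maxHeartbeats 400000

/-!
# The groups attached to a tower
-/

namespace Pool.Agent.helper66.FJT

open Topology Filter

variable {X : Type} [TopologicalSpace X] (T : X ≃ₜ X)

theorem perm_apply_inv (g : Equiv.Perm X) (x : X) : g (g⁻¹ x) = x := g.apply_symm_apply x

theorem perm_inv_apply (g : Equiv.Perm X) (x : X) : g⁻¹ (g x) = x := g.symm_apply_apply x

/-- elements of the full group preserving every tower -/
def SB (B : Set X) : Subgroup (Equiv.Perm X) where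
  carrier := {g | g ∈ FG T ∧ ∀ x, base T B (g x) = base T B x}
  one_mem' := ⟨Subgroup.one_mem _, fun _ => rfl⟩
  mul_mem' := by
    rintro a b ⟨ha, ha'⟩ ⟨hb, hb'⟩
    exact ⟨Subgroup.mul_mem _ ha hb, fun x => by
      rw [Equiv.Perm.mul_apply, ha', hb']⟩
  inv_mem' := by
    rintro a ⟨ha, ha'⟩
    refine ⟨Subgroup.inv_mem _ ha, fun x => ?_⟩
    have := ha' (a⁻¹ x)
    rw [perm_apply_inv] at this
    exact this.symm

/-- the type of lines -/
def Line (B : Set X) : Type := {A : Set X // IsLine T B A}

variable {T}

theorem IsLine.image {B A : Set X} (hA : IsLine T B A) {g : Equiv.Perm X} (hg : g ∈ SB T B) :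
    IsLine T B (g '' A) := by
  obtain ⟨⟨hg1, hg2⟩, hg3⟩ := hg
  refine ⟨?_, ?_, ?_⟩
  · rw [Equiv.image_eq_preimage_symm]
    exact hA.clopen.preimage hg2.continuous
  · intro b hb
    obtain ⟨y, hy, rfl⟩ := hA.ex b hb
    exact ⟨g y, ⟨y, hy, rfl⟩, hg3 y⟩
  · rintro _ ⟨y, hy, rfl⟩ _ ⟨z, hz, rfl⟩ h
    rw [hg3, hg3] at h
    rw [hA.uniq y hy z hz h]

instance (B : Set X) : MulAction (SB T B) (Line T B) where
  smul g A := ⟨g.1 '' A.1, A.2.image g.2⟩
  one_smul A := Subtype.ext (by
    change (fun x => x) '' A.1 = A.1
    simp)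
  mul_smul g h A := Subtype.ext (by
    change (fun x => g.1 (h.1 x)) '' A.1 = g.1 '' (h.1 '' A.1)
    rw [Set.image_image])

theorem smul_val {B : Set X} (g : SB T B) (A : Line T B) : (g • A).1 = g.1 '' A.1 := rfl

variable (T) in
/-- disjointness graph of the lines -/
def lineGraph (B : Set X) : SimpleGraph (Line T B) where
  Adj v w := v ≠ w ∧ Disjoint v.1 w.1
  symm := ⟨fun v w h => ⟨h.1.symm, h.2.symm⟩⟩
  loopless := ⟨fun v h => h.1 rfl⟩

theorem lineGraph_smul (B : Set X) (g : SB T B) (v w : Line T B)
    (h : (lineGraph T B).Adj v w) : (lineGraph T B).Adj (g • v) (g • w) := by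
  refine ⟨fun e => h.1 ?_, ?_⟩
  · have := congrArg (fun z => g⁻¹ • z) e
    simpa using this
  · rw [smul_val, smul_val, Set.disjoint_image_iff g.1.injective]
    exact h.2

variable (T) in
/-- the group attached to a tower -/
abbrev GB (B : Set X) : Type := SD (Γ := lineGraph T B) (S := SB T B) (lineGraph_smul B)

section Pi

variable {B : Set X} (hB : Good T B)

/-- transport along a line, as an element of the full group -/
noncomputable def tau (v : Line T B) : FG T := ⟨tauPerm hB v.2, tauPerm_mem_FG hB v.2⟩

theorem tauPerm_comm {A A' : Set X} (hA : IsLine T B A) (hA' : IsLine T B A')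
    (h : Disjoint A A') : Commute (tauPerm hB hA) (tauPerm hB hA') := by
  apply Equiv.Perm.Disjoint.commute
  intro x
  by_cases hx : x ∈ A
  · exact Or.inr (tauPerm_of_not_mem hB hA' (Set.disjoint_left.1 h hx))
  · exact Or.inl (tauPerm_of_not_mem hB hA hx)

theorem tauPerm_conj {A A' : Set X} (hA : IsLine T B A) (hA' : IsLine T B A') {g : Equiv.Perm X}
    (hg : g ∈ SB T B) (h : g '' A = A') :
    g * tauPerm hB hA * g⁻¹ = tauPerm hB hA' := by
  subst h
  rw [mul_inv_eq_iff_eq_mul]
  ext x
  rw [Equiv.Perm.mul_apply, Equiv.Perm.mul_apply]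
  by_cases hx : x ∈ A
  · symm
    refine tauPerm_eq hB hA' ⟨x, hx, rfl⟩ ⟨_, tauPerm_mem hB hA hx, rfl⟩ ?_
    rw [hg.2, base_tauPerm hB hA hx, ← hB.nxt_base x, ← hB.nxt_base (g x), hg.2]
  · rw [tauPerm_of_not_mem hB hA hx, tauPerm_of_not_mem hB hA']
    rintro ⟨y, hy, e⟩
    exact hx (g.injective e ▸ hy)

theorem SB_le : SB T B ≤ FG T := fun _ h => h.1

/-- the map to the full group -/
noncomputable def piB : GB T B →* FG T :=
  SD.lift _ (tau hB) (Subgroup.inclusion SB_le)
    (fun v w h => by
      have := tauPerm_comm hB v.2 w.2 h.2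
      exact Subtype.ext this)
    (fun s v => Subtype.ext (tauPerm_conj hB v.2 (s • v).2 s.2 rfl))

@[simp] theorem piB_gen (v : Line T B) :
    piB hB (SemidirectProduct.inl (gen _ v)) = tau hB v := by simp [piB]

@[simp] theorem piB_inr (s : SB T B) :
    piB hB (SemidirectProduct.inr s) = Subgroup.inclusion SB_le s := by simp [piB]

end Pi

/-! ### Local finiteness -/

section LF

variable {B : Set X} (hB : Good T B)
include hB

theorem locfin (F : Set (SB T B)) (hF : F.Finite) :
    ((Subgroup.closure F : Subgroup (SB T B)) : Set (SB T B)).Finite := by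
  classical
  obtain ⟨M, hM⟩ := hB.ht_le
  haveI : Finite F := hF
  -- data of a point
  let D := Fin (M + 1) × (Fin (M + 1) → Fin (M + 1)) × (F → Fin (M + 1) → Fin (M + 1))
  let h' : X → Fin (M + 1) := fun x => ⟨ht T B x, Nat.lt_succ_of_le (hM x)⟩
  let δ : X → D := fun x => (h' x, fun j => h' ((T ^ (j : ℤ)) (base T B x)),
    fun g j => h' (g.1.1 ((T ^ (j : ℤ)) (base T B x))))
  have hb : ∀ z, z = (T ^ (ht T B z : ℤ)) (base T B z) := fun z => by
    unfold base; rw [pw_cancel_neg]
  let H : Subgroup (SB T B) :=
    { carrier := {g | ∀ x x', δ x = δ x' → h' (g.1 x) = h' (g.1 x')}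
      one_mem' := fun x x' h => congrArg Prod.fst h
      mul_mem' := by
        intro a b ha hb' x x' h
        refine ha (b.1 x) (b.1 x') ?_
        have h1 := hb' x x' h
        have h2 := congrArg Prod.snd h
        simp only [δ] at h2 ⊢
        rw [b.2.2 x, b.2.2 x', h1]
        exact congrArg (Prod.mk _) h2
      inv_mem' := by
        intro a ha x x' h
        have e1 := congrArg (fun d => d.2.1) h
        have e0 : h' x = h' x' := congrArg Prod.fst h
        set y := (a⁻¹).1 x with hy
        have hay : a.1 y = x := by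
          rw [hy]; exact perm_apply_inv a.1 x
        have hby : base T B y = base T B x := by
          have := a.2.2 y
          rw [hay] at this
          exact this.symm
        set y' := (T ^ (ht T B y : ℤ)) (base T B x') with hy'
        have hhy : ht T B y' = ht T B y := by
          have := congrFun e1 (h' y)
          simp only [δ] at this
          have h3 : (T ^ (((h' y : Fin (M + 1)) : ℕ) : ℤ)) (base T B x) = y := by
            change (T ^ (ht T B y : ℤ)) (base T B x) = y
            rw [← hby]
            exact (hb y).symm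
          rw [h3] at this
          exact (congrArg Fin.val this).symm
        have hby' : base T B y' = base T B x' := by
          have : base T B y' = (T ^ (-(ht T B y' : ℤ))) y' := rfl
          rw [this, hhy, hy', pw_neg_cancel]
        have hd : δ y = δ y' := by
          have h1 : h' y = h' y' := Fin.ext hhy.symm
          have h2 := congrArg Prod.snd h
          simp only [δ] at h2 ⊢
          rw [h1, hby, hby']
          exact congrArg (Prod.mk _) h2
        have h4 := ha y y' hd
        rw [hay] at h4
        have h5 : a.1 y' = x' := by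
          rw [hb (a.1 y'), a.2.2 y', hby']
          have : ht T B (a.1 y') = ht T B x' := by
            have := congrArg Fin.val (h4.symm.trans e0)
            exact this
          rw [this]
          exact (hb x').symm
        have h6 : (a⁻¹).1 x' = y' := by
          rw [← h5]; exact perm_inv_apply a.1 y'
        change h' y = h' ((a⁻¹).1 x')
        rw [h6]
        exact Fin.ext hhy.symm }
  have hFH : F ⊆ H := by
    intro g hg x x' h
    have e0 : h' x = h' x' := congrArg Prod.fst h
    have e1 := congrFun (congrFun (congrArg (fun d => d.2.2) h) ⟨g, hg⟩) (h' x)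
    simp only [δ] at e1
    have h3 : ∀ z : X, (T ^ (((h' z : Fin (M + 1)) : ℕ) : ℤ)) (base T B z) = z := fun z =>
      (hb z).symm
    rw [h3 x, e0, h3 x'] at e1
    exact e1
  have hHfin : (H : Set (SB T B)).Finite := by
    let ψ : H → (D → Option (Fin (M + 1))) := fun g d =>
      if hd : ∃ x, δ x = d then some (h' (g.1.1 hd.choose)) else none
    have hψ : Function.Injective ψ := by
      intro g g' h
      apply Subtype.ext; apply Subtype.ext
      ext x
      have h1 := congrFun h (δ x)
      have hd : ∃ x', δ x' = δ x := ⟨x, rfl⟩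
      simp only [ψ, dif_pos hd, Option.some.injEq] at h1
      rw [g.2 _ _ hd.choose_spec, g'.2 _ _ hd.choose_spec] at h1
      have h2 : ht T B (g.1.1 x) = ht T B (g'.1.1 x) := congrArg Fin.val h1
      rw [hb (g.1.1 x), hb (g'.1.1 x), g.1.2.2, g'.1.2.2, h2]
    have : Finite H := Finite.of_injective ψ hψ
    exact Set.toFinite _
  exact hHfin.subset ((Subgroup.closure_le _).2 hFH)

theorem GB_mem {P : ∀ (G : Type) [Group G], Prop} (hP : Closed P) : P (GB T B) :=
  SD_mem _ hP (locfin hB)

end LF

end Pool.Agent.helper66.FJT
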