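import Mathlib

set_option autoImplicit false
set_option maxHeartbeats 400000

/-!
# Graph products, right-angled Artin groups, and their semidirect products
-/

namespace Pool.Agent.helper66.FJT

/-- The graph product of the groups `G v` over the simple graph `Γ`: the free product of the `G v`
modulo the relations saying that `G v` and `G w` commute when `v` and `w` are adjacent. -/
def GraphProduct {V : Type} (Γ : SimpleGraph V) (G : V → Type) [∀ v, Group (G v)] : Type :=
  Monoid.CoprodI G ⧸ Subgroup.normalClosure {x : Monoid.CoprodI G |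
    ∃ v w, Γ.Adj v w ∧ ∃ (a : G v) (b : G w),
      x = Monoid.CoprodI.of a * Monoid.CoprodI.of b * (Monoid.CoprodI.of a)⁻¹ *
        (Monoid.CoprodI.of b)⁻¹}

/-- the normal subgroup of relations of the graph product -/
def relSub {V : Type} (Γ : SimpleGraph V) (G : V → Type) [∀ v, Group (G v)] :
    Subgroup (Monoid.CoprodI G) :=
  Subgroup.normalClosure {x : Monoid.CoprodI G |
    ∃ v w, Γ.Adj v w ∧ ∃ (a : G v) (b : G w),
      x = Monoid.CoprodI.of a * Monoid.CoprodI.of b * (Monoid.CoprodI.of a)⁻¹ *
        (Monoid.CoprodI.of b)⁻¹}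

instance {V : Type} (Γ : SimpleGraph V) (G : V → Type) [∀ v, Group (G v)] :
    (relSub Γ G).Normal := Subgroup.normalClosure_normal

instance {V : Type} (Γ : SimpleGraph V) (G : V → Type) [∀ v, Group (G v)] :
    Group (GraphProduct Γ G) :=
  inferInstanceAs (Group (Monoid.CoprodI G ⧸ relSub Γ G))

/-- the projection from the free product -/
def GraphProduct.proj {V : Type} (Γ : SimpleGraph V) (G : V → Type) [∀ v, Group (G v)] :
    Monoid.CoprodI G →* GraphProduct Γ G := QuotientGroup.mk' (relSub Γ G)

theorem GraphProduct.proj_surjective {V : Type} (Γ : SimpleGraph V) (G : V → Type)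
    [∀ v, Group (G v)] : Function.Surjective (GraphProduct.proj Γ G) :=
  QuotientGroup.mk'_surjective (relSub Γ G)

theorem GraphProduct.proj_eq_one {V : Type} (Γ : SimpleGraph V) (G : V → Type)
    [∀ v, Group (G v)] {x : Monoid.CoprodI G} (hx : x ∈ relSub Γ G) :
    GraphProduct.proj Γ G x = 1 := (QuotientGroup.eq_one_iff x).2 hx

theorem GraphProduct.commute_of_adj {V : Type} {Γ : SimpleGraph V} {G : V → Type}
    [∀ v, Group (G v)] {v w : V} (h : Γ.Adj v w) (a : G v) (b : G w) :
    Commute (GraphProduct.proj Γ G (Monoid.CoprodI.of a))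
      (GraphProduct.proj Γ G (Monoid.CoprodI.of b)) := by
  have h0 : GraphProduct.proj Γ G (Monoid.CoprodI.of a * Monoid.CoprodI.of b *
      (Monoid.CoprodI.of a)⁻¹ * (Monoid.CoprodI.of b)⁻¹) = 1 :=
    GraphProduct.proj_eq_one Γ G (Subgroup.subset_normalClosure ⟨v, w, h, a, b, rfl⟩)
  rw [map_mul, map_mul, map_mul, map_inv, map_inv] at h0
  exact mul_inv_eq_iff_eq_mul.1 (mul_inv_eq_one.1 h0)

/-- homomorphisms out of a graph product -/
def GraphProduct.lift {V : Type} {Γ : SimpleGraph V} {G : V → Type} [∀ v, Group (G v)]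
    {H : Type} [Group H] (f : Monoid.CoprodI G →* H) (hf : relSub Γ G ≤ f.ker) :
    GraphProduct Γ G →* H := QuotientGroup.lift (relSub Γ G) f hf

theorem GraphProduct.lift_proj {V : Type} {Γ : SimpleGraph V} {G : V → Type} [∀ v, Group (G v)]
    {H : Type} [Group H] (f : Monoid.CoprodI G →* H) (hf : relSub Γ G ≤ f.ker)
    (x : Monoid.CoprodI G) : GraphProduct.lift f hf (GraphProduct.proj Γ G x) = f x := rfl

variable {V : Type} (Γ : SimpleGraph V)

/-- right-angled Artin group -/
abbrev Raag : Type := GraphProduct Γ (fun _ => Multiplicative ℤ)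

/-- the standard generator -/
def gen (v : V) : Raag Γ :=
  GraphProduct.proj Γ (fun _ => Multiplicative ℤ)
    (Monoid.CoprodI.of (M := fun _ : V => Multiplicative ℤ) (i := v) (Multiplicative.ofAdd 1))

variable {Γ}

theorem gen_commute {v w : V} (h : Γ.Adj v w) : Commute (gen Γ v) (gen Γ w) := by
  exact GraphProduct.commute_of_adj h _ _

section lift

variable {H : Type} [Group H]

/-- universal property -/
def Raag.lift (f : V → H) (hf : ∀ v w, Γ.Adj v w → Commute (f v) (f w)) : Raag Γ →* H :=
  GraphProduct.lift (Monoid.CoprodI.lift (fun v => zpowersHom H (f v))) (by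
    refine Subgroup.normalClosure_le_normal ?_
    rintro _ ⟨v, w, hvw, a, b, rfl⟩
    rw [SetLike.mem_coe, MonoidHom.mem_ker, map_mul, map_mul, map_mul, map_inv, map_inv,
      Monoid.CoprodI.lift_of, Monoid.CoprodI.lift_of, mul_inv_eq_one, mul_inv_eq_iff_eq_mul]
    simp only [zpowersHom_apply]
    exact ((hf v w hvw).zpow_zpow _ _))

@[simp] theorem Raag.lift_gen (f : V → H) (hf : ∀ v w, Γ.Adj v w → Commute (f v) (f w)) (v : V) :
    Raag.lift f hf (gen Γ v) = f v := by
  unfold Raag.lift gen
  rw [GraphProduct.lift_proj]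
  simp

end lift

theorem closure_gen : Subgroup.closure (Set.range (gen Γ)) = ⊤ := by
  rw [eq_top_iff]
  rintro x -
  obtain ⟨z, rfl⟩ := GraphProduct.proj_surjective _ _ x
  induction z using Monoid.CoprodI.induction_on with
  | one => rw [map_one]; exact Subgroup.one_mem _
  | of i m =>
    have : GraphProduct.proj Γ (fun _ => Multiplicative ℤ)
        (Monoid.CoprodI.of (M := fun _ : V => Multiplicative ℤ) (i := i) m) =
        (gen Γ i) ^ (Multiplicative.toAdd m) := by
      unfold gen
      rw [← map_zpow, ← map_zpow]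
      congr 2
      rw [← ofAdd_zsmul]
      simp
    rw [this]
    exact Subgroup.zpow_mem _ (Subgroup.subset_closure (Set.mem_range_self i)) _
  | mul x y hx hy => rw [map_mul]; exact Subgroup.mul_mem _ hx hy

theorem Raag.hom_ext {H : Type} [Group H] {f g : Raag Γ →* H}
    (h : ∀ v, f (gen Γ v) = g (gen Γ v)) : f = g := by
  refine MonoidHom.eq_of_eqOn_dense closure_gen ?_
  rintro _ ⟨v, rfl⟩
  exact h v

/-- maps between right-angled Artin groups -/
def Raag.map {W : Type} {Δ : SimpleGraph W} (f : V → W) (hf : ∀ v w, Γ.Adj v w → Δ.Adj (f v) (f w)) :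
    Raag Γ →* Raag Δ :=
  Raag.lift (fun v => gen Δ (f v)) (fun v w h => gen_commute (hf v w h))

@[simp] theorem Raag.map_gen {W : Type} {Δ : SimpleGraph W} (f : V → W)
    (hf : ∀ v w, Γ.Adj v w → Δ.Adj (f v) (f w)) (v : V) :
    Raag.map f hf (gen Γ v) = gen Δ (f v) := by simp [Raag.map]

/-- a full subgraph gives a retract -/
theorem Raag.map_subtype_injective (S : Set V) :
    Function.Injective (Raag.map (Γ := Γ.induce S) (Δ := Γ) (fun v => (v : V))
      (fun _ _ h => h)) := by
  classical
  let r : Raag Γ →* Raag (Γ.induce S) := Raag.lift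
    (fun v => if h : v ∈ S then gen (Γ.induce S) (⟨v, h⟩ : S) else 1) (by
      intro v w hvw
      by_cases h1 : v ∈ S
      · by_cases h2 : w ∈ S
        · simp only [h1, h2, dif_pos]
          exact gen_commute hvw
        · simp [h2]
      · simp [h1])
  have hr : r.comp (Raag.map (Γ := Γ.induce S) (Δ := Γ) (fun v => (v : V)) (fun _ _ h => h)) =
      MonoidHom.id _ := by
    apply Raag.hom_ext
    rintro ⟨v, hv⟩
    simp [r, hv]
  intro x y hxy
  have := congrArg r hxy
  have h1 := DFunLike.congr_fun hr x
  have h2 := DFunLike.congr_fun hr y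
  simp only [MonoidHom.comp_apply, MonoidHom.id_apply] at h1 h2
  rw [← h1, ← h2, this]

section action

variable {S : Type} [Group S] [MulAction S V]

/-- the action of a group of graph automorphisms on the right-angled Artin group -/
def raagAut (hS : ∀ (s : S) (v w : V), Γ.Adj v w → Γ.Adj (s • v) (s • w)) : S →* MulAut (Raag Γ) :=
  MonoidHom.mk' (fun s => MonoidHom.toMulEquiv (Raag.map (fun v => s • v) (hS s))
    (Raag.map (fun v => s⁻¹ • v) (hS s⁻¹))
    (Raag.hom_ext fun v => by simp) (Raag.hom_ext fun v => by simp)) (by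
      intro s s'
      ext x
      have : (Raag.map (Γ := Γ) (Δ := Γ) (fun v => (s * s') • v) (hS (s * s'))) =
          (Raag.map (fun v => s • v) (hS s)).comp (Raag.map (fun v => s' • v) (hS s')) :=
        Raag.hom_ext fun v => by simp [mul_smul]
      exact DFunLike.congr_fun this x)

variable (hS : ∀ (s : S) (v w : V), Γ.Adj v w → Γ.Adj (s • v) (s • w))

@[simp] theorem raagAut_gen (s : S) (v : V) : raagAut hS s (gen Γ v) = gen Γ (s • v) := by
  change Raag.map (fun v => s • v) (hS s) (gen Γ v) = _
  simp

/-- the semidirect product of a right-angled Artin group with a group of graph automorphisms -/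
abbrev SD : Type := Raag Γ ⋊[raagAut hS] S

variable {H : Type} [Group H]

/-- homomorphisms from the semidirect product -/
def SD.lift (f : V → H) (k : S →* H) (hf : ∀ v w, Γ.Adj v w → Commute (f v) (f w))
    (he : ∀ s v, k s * f v * (k s)⁻¹ = f (s • v)) : SD hS →* H :=
  SemidirectProduct.lift (Raag.lift f hf) k (by
    intro s
    apply Raag.hom_ext
    intro v
    simp [he])

@[simp] theorem SD.lift_gen (f : V → H) (k : S →* H) (hf : ∀ v w, Γ.Adj v w → Commute (f v) (f w))
    (he : ∀ s v, k s * f v * (k s)⁻¹ = f (s • v)) (v : V) :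
    SD.lift hS f k hf he (SemidirectProduct.inl (gen Γ v)) = f v := by
  simp [SD.lift]

@[simp] theorem SD.lift_inl (f : V → H) (k : S →* H) (hf : ∀ v w, Γ.Adj v w → Commute (f v) (f w))
    (he : ∀ s v, k s * f v * (k s)⁻¹ = f (s • v)) (n : Raag Γ) :
    SD.lift hS f k hf he (SemidirectProduct.inl n) = Raag.lift f hf n := by
  simp [SD.lift]

@[simp] theorem SD.lift_inr (f : V → H) (k : S →* H) (hf : ∀ v w, Γ.Adj v w → Commute (f v) (f w))
    (he : ∀ s v, k s * f v * (k s)⁻¹ = f (s • v)) (s : S) :
    SD.lift hS f k hf he (SemidirectProduct.inr s) = k s := by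
  simp [SD.lift]

theorem SD.hom_ext {f g : SD hS →* H}
    (h1 : ∀ v, f (SemidirectProduct.inl (gen Γ v)) = g (SemidirectProduct.inl (gen Γ v)))
    (h2 : ∀ s, f (SemidirectProduct.inr s) = g (SemidirectProduct.inr s)) : f = g := by
  apply SemidirectProduct.hom_ext
  · exact Raag.hom_ext h1
  · ext s; exact h2 s

theorem SD.conj_gen (s : S) (v : V) :
    (SemidirectProduct.inr s : SD hS) * SemidirectProduct.inl (gen Γ v) *
      (SemidirectProduct.inr s)⁻¹ = SemidirectProduct.inl (gen Γ (s • v)) := by
  rw [← raagAut_gen hS, SemidirectProduct.inl_aut, map_inv]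

/-- induction by right multiplication with generators -/
theorem SD.induction {p : SD hS → Prop} (h1 : p 1)
    (hg : ∀ u v, p u → p (u * SemidirectProduct.inl (gen Γ v)))
    (hg' : ∀ u v, p u → p (u * (SemidirectProduct.inl (gen Γ v))⁻¹))
    (hs : ∀ u s, p u → p (u * SemidirectProduct.inr s)) (u : SD hS) : p u := by
  have key : ∀ n : Raag Γ, p (SemidirectProduct.inl n) := by
    intro n
    have hn : n ∈ Subgroup.closure (Set.range (gen Γ)) := by rw [closure_gen]; trivial
    induction hn using Subgroup.closure_induction_right with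
    | one => simpa using h1
    | mul_right x hx y hy ih =>
      obtain ⟨v, rfl⟩ := hy
      rw [map_mul]
      exact hg _ _ ih
    | mul_inv_cancel x hx y hy ih =>
      obtain ⟨v, rfl⟩ := hy
      rw [map_mul, map_inv]
      exact hg' _ _ ih
  rw [← SemidirectProduct.inl_left_mul_inr_right u]
  exact hs _ _ (key _)

end action

end Pool.Agent.helper66.FJT
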