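import Pool.Agent.helper66.FJT.Class

set_option autoImplicit false
set_option maxHeartbeats 400000

/-!
# Local maps and towers for a homeomorphism
-/

namespace Pool.Agent.helper66.FJT

open Topology Filter

variable {X : Type} [TopologicalSpace X] (T : X ≃ₜ X)

theorem pw_add (k l : ℤ) (x : X) : (T ^ (k + l)) x = (T ^ k) ((T ^ l) x) := by
  rw [zpow_add]; rfl

@[simp] theorem pw_zero (x : X) : (T ^ (0 : ℤ)) x = x := by simp

theorem pw_one (x : X) : (T ^ (1 : ℤ)) x = T x := by simp

theorem pw_neg_cancel (k : ℤ) (x : X) : (T ^ (-k)) ((T ^ k) x) = x := by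
  rw [← pw_add]; simp

theorem pw_cancel_neg (k : ℤ) (x : X) : (T ^ k) ((T ^ (-k)) x) = x := by
  rw [← pw_add]; simp

theorem pw_eq_iff (k : ℤ) (x y : X) : (T ^ k) x = y ↔ x = (T ^ (-k)) y := by
  constructor
  · rintro rfl; rw [pw_neg_cancel]
  · rintro rfl; rw [pw_cancel_neg]

/-- `f` is locally a power of `T` at `x` -/
def LocAt (f : X → X) (x : X) : Prop := ∃ k : ℤ, ∀ᶠ y in 𝓝 x, f y = (T ^ k) y

/-- `f` is locally a power of `T` -/
def Loc (f : X → X) : Prop := ∀ x, LocAt T f x

variable {T}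

theorem LocAt.congr {f g : X → X} {x : X} (h : ∀ᶠ y in 𝓝 x, f y = g y) (hg : LocAt T g x) :
    LocAt T f x := by
  obtain ⟨k, hk⟩ := hg
  refine ⟨k, ?_⟩
  filter_upwards [h, hk] with y h1 h2
  rw [h1, h2]

theorem LocAt.pow (k : ℤ) (x : X) : LocAt T (fun y => (T ^ k) y) x :=
  ⟨k, Eventually.of_forall fun _ => rfl⟩

theorem LocAt.id (x : X) : LocAt T (fun y => y) x :=
  ⟨0, Eventually.of_forall fun _ => by simp⟩

theorem LocAt.continuousAt {f : X → X} {x : X} (h : LocAt T f x) : ContinuousAt f x := by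
  obtain ⟨k, hk⟩ := h
  exact ((T ^ k).continuous.continuousAt).congr (hk.mono fun _ h => h.symm)

theorem Loc.continuous {f : X → X} (h : Loc T f) : Continuous f :=
  continuous_iff_continuousAt.2 fun x => (h x).continuousAt

theorem LocAt.comp {f g : X → X} {x : X} (hf : LocAt T f (g x)) (hg : LocAt T g x) :
    LocAt T (fun y => f (g y)) x := by
  have hc := hg.continuousAt
  obtain ⟨k, hk⟩ := hf
  obtain ⟨l, hl⟩ := hg
  refine ⟨k + l, ?_⟩
  filter_upwards [hc.eventually hk, hl] with y h1 h2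
  rw [h1, h2, pw_add]

theorem Loc.comp {f g : X → X} (hf : Loc T f) (hg : Loc T g) : Loc T (fun y => f (g y)) :=
  fun x => (hf (g x)).comp (hg x)

theorem Loc.pow (k : ℤ) : Loc T (fun y => (T ^ k) y) := fun x => LocAt.pow k x

open Classical in
theorem Loc.ite {A : Set X} (hA : IsClopen A) {f g : X → X} (hf : Loc T f) (hg : Loc T g) :
    Loc T (fun y => if y ∈ A then f y else g y) := by
  intro x
  by_cases hx : x ∈ A
  · refine LocAt.congr ?_ (hf x)
    filter_upwards [hA.isOpen.mem_nhds hx] with y hy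
    rw [if_pos hy]
  · refine LocAt.congr ?_ (hg x)
    filter_upwards [hA.compl.isOpen.mem_nhds hx] with y hy
    rw [if_neg hy]

theorem LocAt.exists {f : X → X} {x : X} (h : LocAt T f x) : ∃ k : ℤ, f x = (T ^ k) x := by
  obtain ⟨k, hk⟩ := h
  exact ⟨k, hk.self_of_nhds⟩

variable (T) in
/-- the full group, as a group of permutations -/
def FG : Subgroup (Equiv.Perm X) where
  carrier := {g | Loc T g ∧ Loc T g.symm}
  one_mem' := ⟨fun x => LocAt.id x, fun x => LocAt.id x⟩
  mul_mem' := by
    rintro a b ⟨ha, ha'⟩ ⟨hb, hb'⟩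
    exact ⟨ha.comp hb, hb'.comp ha'⟩
  inv_mem' := by
    rintro a ⟨ha, ha'⟩
    exact ⟨ha', ha⟩

theorem mem_FG {g : Equiv.Perm X} : g ∈ FG T ↔ Loc T g ∧ Loc T g.symm := Iff.rfl

variable (T) in
/-- clopen sets that are hit with bounded gaps -/
structure Good (B : Set X) : Prop where
  clopen : IsClopen B
  nonempty : B.Nonempty
  bdd : ∃ M : ℕ, ∀ x : X, ∃ n : ℕ, n ≤ M ∧ (T ^ (-(n : ℤ))) x ∈ B
  fwd : ∀ x : X, ∃ n : ℕ, (T ^ ((n : ℤ) + 1)) x ∈ B

variable (T) in
/-- the height of a point in its tower -/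
noncomputable def ht (B : Set X) (x : X) : ℕ := sInf {n : ℕ | (T ^ (-(n : ℤ))) x ∈ B}

variable (T) in
/-- the base point of the tower of a point -/
noncomputable def base (B : Set X) (x : X) : X := (T ^ (-(ht T B x : ℤ))) x

variable (T) in
/-- time to reach the next tower, minus one -/
noncomputable def fw (B : Set X) (x : X) : ℕ := sInf {n : ℕ | (T ^ ((n : ℤ) + 1)) x ∈ B}

variable (T) in
/-- the base point of the next tower -/
noncomputable def nxt (B : Set X) (x : X) : X := (T ^ ((fw T B x : ℤ) + 1)) x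

variable (T) in
/-- the previous base point -/
noncomputable def prv (B : Set X) (x : X) : X := base T B (T.symm x)

section Good

variable {B : Set X} (hB : Good T B)
include hB

theorem Good.ht_mem (x : X) : (T ^ (-(ht T B x : ℤ))) x ∈ B := by
  obtain ⟨M, hM⟩ := hB.bdd
  obtain ⟨n, -, hn⟩ := hM x
  exact Nat.sInf_mem (s := {n : ℕ | (T ^ (-(n : ℤ))) x ∈ B}) ⟨n, hn⟩

theorem Good.base_mem (x : X) : base T B x ∈ B := hB.ht_mem x

theorem Good.ht_le : ∃ M : ℕ, ∀ x, ht T B x ≤ M := by
  obtain ⟨M, hM⟩ := hB.bdd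
  refine ⟨M, fun x => ?_⟩
  obtain ⟨n, hn, hn'⟩ := hM x
  exact (Nat.sInf_le hn').trans hn

omit hB in
theorem ht_of_mem {x : X} (hx : x ∈ B) : ht T B x = 0 := by
  have : ht T B x ≤ 0 := by
    refine Nat.sInf_le ?_
    change (T ^ (-((0 : ℕ) : ℤ))) x ∈ B
    rw [Nat.cast_zero, neg_zero, pw_zero]
    exact hx
  omega

omit hB in
theorem base_of_mem {x : X} (hx : x ∈ B) : base T B x = x := by
  unfold base
  rw [ht_of_mem hx]
  simp

theorem Good.ht_T {x : X} (hx : T x ∉ B) : ht T B (T x) = ht T B x + 1 := by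
  apply le_antisymm
  · refine Nat.sInf_le ?_
    change (T ^ (-((ht T B x + 1 : ℕ) : ℤ))) (T x) ∈ B
    have h := hB.ht_mem x
    have h1 : (T ^ (-((ht T B x + 1 : ℕ) : ℤ))) (T x) = (T ^ (-(ht T B x : ℤ))) x := by
      conv_lhs => rw [← pw_one T x]
      rw [← pw_add]
      congr 2
      push_cast
      ring
    rw [h1]
    exact h
  · have h := hB.ht_mem (T x)
    rcases Nat.eq_zero_or_pos (ht T B (T x)) with h0 | h0
    · rw [h0] at h
      simp at h
      exact absurd h hx
    · obtain ⟨m, hm⟩ := Nat.exists_eq_succ_of_ne_zero h0.ne'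
      rw [hm] at h ⊢
      have h1 : (T ^ (-((m.succ : ℕ) : ℤ))) (T x) = (T ^ (-(m : ℤ))) x := by
        conv_lhs => rw [← pw_one T x]
        rw [← pw_add]
        congr 2
        push_cast
        ring
      rw [h1] at h
      have : ht T B x ≤ m := Nat.sInf_le h
      omega

theorem Good.base_T {x : X} (hx : T x ∉ B) : base T B (T x) = base T B x := by
  unfold base
  rw [hB.ht_T hx]
  conv_lhs => rw [← pw_one T x]
  rw [← pw_add]
  congr 2
  push_cast
  ring

theorem Good.bwd_induction {Q : X → Prop} (h1 : ∀ x ∈ B, Q x)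
    (h2 : ∀ x, T x ∉ B → Q x → Q (T x)) (x : X) : Q x := by
  have key : ∀ n : ℕ, ∀ x, ht T B x = n → Q x := by
    intro n
    induction n with
    | zero =>
      intro x hx
      have h := hB.ht_mem x
      rw [hx] at h
      exact h1 x (by simpa using h)
    | succ n ih =>
      intro x hx
      have hx' : T (T.symm x) ∉ B := by
        rw [T.apply_symm_apply]
        intro h
        rw [ht_of_mem h] at hx
        omega
      have h3 := hB.ht_T hx'
      rw [T.apply_symm_apply] at h3
      have := h2 (T.symm x) hx' (ih _ (by omega))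
      rwa [T.apply_symm_apply] at this
  exact key _ x rfl

theorem Good.fw_mem (x : X) : nxt T B x ∈ B :=
  Nat.sInf_mem (s := {n : ℕ | (T ^ ((n : ℤ) + 1)) x ∈ B}) (hB.fwd x)

omit hB in
theorem fw_of_mem {x : X} (hx : T x ∈ B) : fw T B x = 0 := by
  have : fw T B x ≤ 0 := Nat.sInf_le (by simpa using hx)
  omega

omit hB in
theorem nxt_of_mem {x : X} (hx : T x ∈ B) : nxt T B x = T x := by
  unfold nxt
  rw [fw_of_mem hx]
  simp

theorem Good.fw_T {x : X} (hx : T x ∉ B) : fw T B x = fw T B (T x) + 1 := by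
  have e : ∀ m : ℕ, (T ^ (((m + 1 : ℕ) : ℤ) + 1)) x = (T ^ ((m : ℤ) + 1)) (T x) := by
    intro m
    conv_rhs => rw [← pw_one T x]
    rw [← pw_add]
    push_cast
    rfl
  apply le_antisymm
  · refine Nat.sInf_le ?_
    change (T ^ (((fw T B (T x) + 1 : ℕ) : ℤ) + 1)) x ∈ B
    rw [e]
    exact hB.fw_mem (T x)
  · have h : (T ^ ((fw T B x : ℤ) + 1)) x ∈ B := hB.fw_mem x
    rcases Nat.eq_zero_or_pos (fw T B x) with h0 | h0
    · rw [h0] at h
      simp at h
      exact absurd h hx
    · obtain ⟨m, hm⟩ := Nat.exists_eq_succ_of_ne_zero h0.ne'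
      rw [hm] at h ⊢
      rw [Nat.succ_eq_add_one, e] at h
      have : fw T B (T x) ≤ m := Nat.sInf_le h
      omega

theorem Good.nxt_T {x : X} (hx : T x ∉ B) : nxt T B x = nxt T B (T x) := by
  unfold nxt
  rw [hB.fw_T hx]
  conv_rhs => rw [← pw_one T x]
  rw [← pw_add]
  push_cast
  rfl

theorem Good.fwd_induction {Q : X → Prop} (h1 : ∀ x, T x ∈ B → Q x)
    (h2 : ∀ x, T x ∉ B → Q (T x) → Q x) (x : X) : Q x := by
  have key : ∀ n : ℕ, ∀ x, fw T B x = n → Q x := by
    intro n
    induction n with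
    | zero =>
      intro x hx
      have h := hB.fw_mem x
      unfold nxt at h
      rw [hx] at h
      exact h1 x (by simpa using h)
    | succ n ih =>
      intro x hx
      have hx' : T x ∉ B := by
        intro h
        rw [fw_of_mem h] at hx
        omega
      have h3 := hB.fw_T hx'
      exact h2 x hx' (ih _ (by omega))
  exact key _ x rfl

theorem Good.base_base (x : X) : base T B (base T B x) = base T B x :=
  base_of_mem (hB.base_mem x)

theorem Good.base_nxt (x : X) : base T B (nxt T B x) = nxt T B x :=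
  base_of_mem (hB.fw_mem x)

theorem Good.nxt_base (x : X) : nxt T B (base T B x) = nxt T B x := by
  induction x using hB.bwd_induction with
  | h1 x hx => rw [base_of_mem hx]
  | h2 x hx ih => rw [hB.base_T hx, ih, hB.nxt_T hx]

theorem Good.prv_nxt (x : X) : prv T B (nxt T B x) = base T B x := by
  unfold prv
  induction x using hB.fwd_induction with
  | h1 x hx => rw [nxt_of_mem hx, T.symm_apply_apply]
  | h2 x hx ih => rw [hB.nxt_T hx, ih, hB.base_T hx]

theorem Good.nxt_prv {b : X} (hb : b ∈ B) : nxt T B (prv T B b) = b := by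
  unfold prv
  rw [hB.nxt_base, nxt_of_mem (by rwa [T.apply_symm_apply]), T.apply_symm_apply]

theorem Good.base_prv (b : X) : base T B (prv T B b) = prv T B b := by
  unfold prv
  rw [hB.base_base]

theorem Good.ht_loc (x : X) : ∀ᶠ y in 𝓝 x, ht T B y = ht T B x := by
  induction x using hB.bwd_induction with
  | h1 x hx =>
    filter_upwards [hB.clopen.isOpen.mem_nhds hx] with y hy
    rw [ht_of_mem hx, ht_of_mem hy]
  | h2 x hx ih =>
    have h1 : Tendsto T.symm (𝓝 (T x)) (𝓝 x) := by
      have := T.symm.continuous.tendsto (T x)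
      rwa [T.symm_apply_apply] at this
    filter_upwards [h1.eventually ih, hB.clopen.compl.isOpen.mem_nhds hx] with y hy hy'
    have hy2 : T (T.symm y) ∉ B := by rwa [T.apply_symm_apply]
    have h2 := hB.ht_T hy2
    rw [T.apply_symm_apply] at h2
    rw [h2, hy, hB.ht_T hx]

theorem Good.base_loc : Loc T (base T B) := by
  intro x
  refine ⟨-(ht T B x : ℤ), ?_⟩
  filter_upwards [hB.ht_loc x] with y hy
  unfold base
  rw [hy]

theorem Good.nxt_loc : Loc T (nxt T B) := by
  intro x
  induction x using hB.fwd_induction with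
  | h1 x hx =>
    refine LocAt.congr ?_ (LocAt.pow 1 x)
    have h1 : T ⁻¹' B ∈ 𝓝 x := T.continuous.continuousAt.preimage_mem_nhds
      (hB.clopen.isOpen.mem_nhds hx)
    filter_upwards [h1] with y hy
    have hy' : T y ∈ B := hy
    rw [nxt_of_mem hy', pw_one]
  | h2 x hx ih =>
    have h0 : LocAt T (fun y => nxt T B ((T ^ (1 : ℤ)) y)) x :=
      LocAt.comp (by rwa [pw_one]) (LocAt.pow 1 x)
    refine LocAt.congr ?_ h0
    have h1 : T ⁻¹' Bᶜ ∈ 𝓝 x := T.continuous.continuousAt.preimage_mem_nhds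
      (hB.clopen.compl.isOpen.mem_nhds hx)
    filter_upwards [h1] with y hy
    have hy' : T y ∉ B := hy
    rw [hB.nxt_T hy', pw_one]

theorem Good.prv_loc : Loc T (prv T B) := by
  have h := hB.base_loc.comp (Loc.pow (T := T) (-1))
  intro x
  refine LocAt.congr (Eventually.of_forall fun y => ?_) (h x)
  unfold prv
  congr 1

end Good

/-! ### Lines -/

variable (T) in
/-- a clopen set meeting each tower in exactly one point -/
structure IsLine (B A : Set X) : Prop where
  clopen : IsClopen A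
  ex : ∀ b ∈ B, ∃ y ∈ A, base T B y = b
  uniq : ∀ y ∈ A, ∀ z ∈ A, base T B y = base T B z → y = z

open Classical in
variable (T) in
/-- the point of `A` in the tower of `x` -/
noncomputable def sig (B A : Set X) (x : X) : X :=
  if h : ∃ y ∈ A, base T B y = base T B x then h.choose else x

section Line

variable {B : Set X} (hB : Good T B) {A : Set X} (hA : IsLine T B A)
include hB hA

theorem sig_mem (x : X) : sig T B A x ∈ A := by
  unfold sig
  have h := hA.ex _ (hB.base_mem x)
  rw [dif_pos h]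
  exact h.choose_spec.1

theorem base_sig (x : X) : base T B (sig T B A x) = base T B x := by
  unfold sig
  have h := hA.ex _ (hB.base_mem x)
  rw [dif_pos h]
  exact h.choose_spec.2

theorem sig_eq {x y : X} (hy : y ∈ A) (h : base T B y = base T B x) : sig T B A x = y :=
  hA.uniq _ (sig_mem hB hA x) _ hy ((base_sig hB hA x).trans h.symm)

theorem sig_self {x : X} (hx : x ∈ A) : sig T B A x = x := sig_eq hB hA hx rfl

theorem sig_loc : Loc T (sig T B A) := by
  intro x
  have hb : ∀ z, z = (T ^ (ht T B z : ℤ)) (base T B z) := fun z => by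
    unfold base; rw [pw_cancel_neg]
  have h1 : sig T B A x = (T ^ ((ht T B (sig T B A x) : ℤ) - ht T B x)) x := by
    rw [sub_eq_add_neg, pw_add]
    change _ = (T ^ (ht T B (sig T B A x) : ℤ)) (base T B x)
    rw [← base_sig hB hA x]
    exact hb _
  set y := sig T B A x with hy
  have hc : Tendsto (fun z => (T ^ ((ht T B y : ℤ) - ht T B x)) z) (𝓝 x) (𝓝 y) := by
    have := (T ^ ((ht T B y : ℤ) - ht T B x)).continuous.tendsto x
    rwa [← h1] at this
  refine ⟨(ht T B y : ℤ) - ht T B x, ?_⟩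
  filter_upwards [hB.ht_loc x, hc.eventually (hB.ht_loc y),
    hc.eventually (hA.clopen.isOpen.mem_nhds (sig_mem hB hA x))] with z h2 h3 h4
  refine sig_eq hB hA h4 ?_
  unfold base
  rw [h3, h2, ← pw_add]
  congr 2
  ring

open Classical in
/-- transport along a line -/
noncomputable def tauPerm : Equiv.Perm X where
  toFun x := if x ∈ A then sig T B A (nxt T B x) else x
  invFun x := if x ∈ A then sig T B A (prv T B (base T B x)) else x
  left_inv := by
    intro x
    by_cases hx : x ∈ A
    · have h1 := sig_mem hB hA (nxt T B x)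
      simp only [hx, h1, if_true]
      refine sig_eq hB hA hx ?_
      rw [base_sig hB hA, hB.base_nxt, hB.prv_nxt, hB.base_base]
    · simp only [hx, if_false]
  right_inv := by
    intro x
    by_cases hx : x ∈ A
    · have h1 := sig_mem hB hA (prv T B (base T B x))
      simp only [hx, h1, if_true]
      refine sig_eq hB hA hx ?_
      rw [← hB.nxt_base (sig T B A _), base_sig hB hA, hB.base_prv,
        hB.nxt_prv (hB.base_mem x), hB.base_base]
    · simp only [hx, if_false]

theorem tauPerm_mem_FG : tauPerm hB hA ∈ FG T :=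
  ⟨Loc.ite hA.clopen ((sig_loc hB hA).comp hB.nxt_loc) (fun x => LocAt.id x),
    Loc.ite hA.clopen ((sig_loc hB hA).comp (hB.prv_loc.comp hB.base_loc)) (fun x => LocAt.id x)⟩

theorem tauPerm_of_mem {x : X} (hx : x ∈ A) : tauPerm hB hA x = sig T B A (nxt T B x) :=
  if_pos hx

theorem tauPerm_of_not_mem {x : X} (hx : x ∉ A) : tauPerm hB hA x = x :=
  if_neg hx

theorem tauPerm_symm_of_mem {x : X} (hx : x ∈ A) :
    (tauPerm hB hA).symm x = sig T B A (prv T B (base T B x)) :=
  if_pos hx

theorem tauPerm_mem {x : X} (hx : x ∈ A) : tauPerm hB hA x ∈ A := by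
  rw [tauPerm_of_mem hB hA hx]
  exact sig_mem hB hA _

theorem base_tauPerm {x : X} (hx : x ∈ A) : base T B (tauPerm hB hA x) = nxt T B x := by
  rw [tauPerm_of_mem hB hA hx, base_sig hB hA, hB.base_nxt]

theorem tauPerm_eq {x y : X} (hx : x ∈ A) (hy : y ∈ A) (h : base T B y = nxt T B x) :
    tauPerm hB hA x = y := by
  refine hA.uniq _ (tauPerm_mem hB hA hx) _ hy ?_
  rw [base_tauPerm hB hA hx, h]

theorem tauPerm_symm_mem {x : X} (hx : x ∈ A) : (tauPerm hB hA).symm x ∈ A := by
  rw [tauPerm_symm_of_mem hB hA hx]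
  exact sig_mem hB hA _

theorem tauPerm_symm_of_not_mem {x : X} (hx : x ∉ A) : (tauPerm hB hA).symm x = x := by
  rw [Equiv.symm_apply_eq, tauPerm_of_not_mem hB hA hx]

theorem base_tauPerm_symm {x : X} (hx : x ∈ A) :
    base T B ((tauPerm hB hA).symm x) = prv T B (base T B x) := by
  rw [tauPerm_symm_of_mem hB hA hx, base_sig hB hA, hB.base_prv]

theorem tauPerm_pos {x : X} (hx : x ∈ A) : ∃ m : ℕ, tauPerm hB hA x = (T ^ ((m : ℤ) + 1)) x := by
  have hb : ∀ z, z = (T ^ (ht T B z : ℤ)) (base T B z) := fun z => by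
    unfold base; rw [pw_cancel_neg]
  refine ⟨ht T B (tauPerm hB hA x) + fw T B x, ?_⟩
  conv_lhs => rw [hb (tauPerm hB hA x)]
  rw [base_tauPerm hB hA hx]
  unfold nxt
  rw [← pw_add]
  congr 2

end Line

end Pool.Agent.helper66.FJT
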