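import Pool.Agent.helper66.FJT.Act

set_option autoImplicit false
set_option maxHeartbeats 400000

/-!
# Uniform lines over small clopen sets
-/

namespace Pool.Agent.helper66.FJT

open Topology Filter

variable {X : Type} [TopologicalSpace X] {T : X ≃ₜ X}

variable (T) in
/-- `B` does not meet its first `R` translates -/
def Sep (B : Set X) (R : ℤ) : Prop := ∀ z ∈ B, ∀ j : ℤ, 0 < j → j ≤ R → (T ^ j) z ∉ B

theorem Sep.mono {B : Set X} {R R' : ℤ} (h : Sep T B R') (hR : R ≤ R') : Sep T B R :=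
  fun z hz j hj hj' => h z hz j hj (hj'.trans hR)

variable (T) in
/-- the translate `T ^ a B` -/
def U (B : Set X) (a : ℤ) : Set X := {x | (T ^ (-a)) x ∈ B}

theorem mem_U {B : Set X} {a : ℤ} {x : X} : x ∈ U T B a ↔ (T ^ (-a)) x ∈ B := Iff.rfl

theorem pow_mem_U {B : Set X} {a : ℤ} {z : X} : (T ^ a) z ∈ U T B a ↔ z ∈ B := by
  rw [mem_U, pw_neg_cancel]

theorem mem_U_iff {B : Set X} {a : ℤ} {x : X} : x ∈ U T B a ↔ ∃ z ∈ B, x = (T ^ a) z := by
  constructor
  · intro hx
    exact ⟨_, hx, (pw_cancel_neg _ _ _).symm⟩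
  · rintro ⟨z, hz, rfl⟩
    exact pow_mem_U.2 hz

section

variable {B : Set X} (hB : Good T B)
include hB

theorem base_pow (k : ℕ) (x : X) (h : ∀ i : ℤ, 0 < i → i ≤ k → (T ^ i) x ∉ B) :
    base T B ((T ^ (k : ℤ)) x) = base T B x := by
  induction k with
  | zero => simp
  | succ k ih =>
    have e : (T ^ ((k + 1 : ℕ) : ℤ)) x = T ((T ^ (k : ℤ)) x) := by
      rw [← pw_one T ((T ^ (k : ℤ)) x), ← pw_add]
      push_cast
      rw [add_comm]
    have h1 := h ((k + 1 : ℕ) : ℤ) (by omega) le_rfl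
    rw [e] at h1 ⊢
    rw [hB.base_T h1]
    exact ih (fun i hi hi' => h i hi (by push_cast; omega))

theorem base_zpow_nonneg {k : ℤ} (hk : 0 ≤ k) (x : X)
    (h : ∀ i : ℤ, 0 < i → i ≤ k → (T ^ i) x ∉ B) :
    base T B ((T ^ k) x) = base T B x := by
  obtain ⟨n, rfl⟩ := Int.eq_ofNat_of_zero_le hk
  exact base_pow hB n x h

theorem base_zpow_nonpos {k : ℤ} (hk : k ≤ 0) (x : X)
    (h : ∀ i : ℤ, k < i → i ≤ 0 → (T ^ i) x ∉ B) :
    base T B ((T ^ k) x) = base T B x := by
  have h1 := base_zpow_nonneg hB (k := -k) (by omega) ((T ^ k) x) (by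
    intro i hi hi'
    rw [← pw_add]
    exact h _ (by omega) (by omega))
  rw [pw_neg_cancel] at h1
  exact h1.symm

theorem base_T_pos {R : ℤ} (hsep : Sep T B R) {z : X} (hz : z ∈ B) {a : ℤ} (ha : 0 ≤ a)
    (haR : a ≤ R) : base T B ((T ^ a) z) = z := by
  rw [base_zpow_nonneg hB ha z (fun i hi hi' => hsep z hz i hi (hi'.trans haR)), base_of_mem hz]

theorem base_T_neg {R : ℤ} (hsep : Sep T B R) {z : X} (hz : z ∈ B) {a : ℤ} (ha : a < 0)
    (haR : -R ≤ a) : base T B ((T ^ a) z) = prv T B z := by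
  have e : (T ^ a) z = (T ^ (a + 1)) (T.symm z) := by
    rw [pw_add, pw_one, T.apply_symm_apply]
  unfold prv
  rw [e]
  apply base_zpow_nonpos hB (by omega)
  intro i hi hi' hmem
  have e2 : (T ^ i) (T.symm z) = (T ^ (i - 1)) z := by
    rw [sub_eq_add_neg, pw_add]
    rfl
  rw [e2] at hmem
  have h3 := hsep _ hmem (1 - i) (by omega) (by omega)
  rw [← pw_add] at h3
  apply h3
  simpa using hz

theorem U_isLine {R : ℤ} (hsep : Sep T B R) {a : ℤ} (ha : |a| ≤ R) : IsLine T B (U T B a) := by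
  have ha' := abs_le.1 ha
  refine ⟨hB.clopen.preimage (T ^ (-a)).continuous, ?_, ?_⟩
  · intro b hb
    by_cases h0 : 0 ≤ a
    · exact ⟨_, pow_mem_U.2 hb, base_T_pos hB hsep hb h0 ha'.2⟩
    · refine ⟨_, pow_mem_U.2 (hB.fw_mem b), ?_⟩
      rw [base_T_neg hB hsep (hB.fw_mem b) (by omega) (by omega), hB.prv_nxt, base_of_mem hb]
  · intro y hy z hz e
    obtain ⟨y', hy', rfl⟩ := mem_U_iff.1 hy
    obtain ⟨z', hz', rfl⟩ := mem_U_iff.1 hz
    congr 1
    by_cases h0 : 0 ≤ a
    · rwa [base_T_pos hB hsep hy' h0 ha'.2, base_T_pos hB hsep hz' h0 ha'.2] at e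
    · rw [base_T_neg hB hsep hy' (by omega) (by omega),
        base_T_neg hB hsep hz' (by omega) (by omega)] at e
      rw [← hB.nxt_prv hy', e, hB.nxt_prv hz']

omit hB in
theorem U_disjoint {R : ℤ} (hsep : Sep T B (2 * R)) {a b : ℤ} (ha : |a| ≤ R) (hb : |b| ≤ R)
    (hab : a ≠ b) : Disjoint (U T B a) (U T B b) := by
  have key : ∀ a b : ℤ, |a| ≤ R → |b| ≤ R → a < b → Disjoint (U T B a) (U T B b) := by
    intro a b ha hb h
    have ha' := abs_le.1 ha
    have hb' := abs_le.1 hb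
    rw [Set.disjoint_left]
    intro x hx hx'
    have h1 := hsep _ (mem_U.1 hx') (b - a) (by omega) (by omega)
    rw [← pw_add] at h1
    apply h1
    have : b - a + -b = -a := by ring
    rw [this]
    exact hx
  rcases lt_or_gt_of_ne hab with h | h
  · exact key a b ha hb h
  · exact (key b a hb ha h).symm

end

variable (T) in
/-- the uniform lines of radius `R` -/
def fam (B : Set X) (R : ℤ) : Set (Line T B) := {v | ∃ a : ℤ, |a| ≤ R ∧ v.1 = U T B a}

theorem fam_mono (B : Set X) {R R' : ℤ} (h : R ≤ R') : fam T B R ⊆ fam T B R' := by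
  rintro v ⟨a, ha, e⟩
  exact ⟨a, ha.trans h, e⟩

theorem fam_finite (B : Set X) (R : ℤ) : (fam T B R).Finite := by
  have h1 : ((fun a : ℤ => U T B a) '' (Set.Icc (-R) R)).Finite := (Set.finite_Icc _ _).image _
  refine (h1.preimage (f := fun v : Line T B => v.1) (Subtype.val_injective.injOn)).subset ?_
  rintro v ⟨a, ha, e⟩
  exact ⟨a, ⟨(abs_le.1 ha).1, (abs_le.1 ha).2⟩, e.symm⟩

theorem fam_disjoint {B : Set X} {R : ℤ} (hsep : Sep T B (2 * R)) (v : Line T B)
    (hv : v ∈ fam T B R) (w : Line T B) (hw : w ∈ fam T B R) (h : v ≠ w) :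
    Disjoint v.1 w.1 := by
  obtain ⟨a, ha, e⟩ := hv
  obtain ⟨b, hb, e'⟩ := hw
  rw [e, e']
  refine U_disjoint hsep ha hb ?_
  rintro rfl
  exact h (Subtype.ext (e.trans e'.symm))

theorem fam_U {B : Set X} {R : ℤ} (hsep : Sep T B (2 * R)) (v : Line T B) (hv : v ∈ fam T B R)
    {c : ℤ} (hc : |c| ≤ R) : U T B c = v.1 ∨ Disjoint (U T B c) v.1 := by
  obtain ⟨a, ha, e⟩ := hv
  by_cases h : c = a
  · left; rw [h, e]
  · right; rw [e]; exact U_disjoint hsep hc ha h

/-! ### The surjectivity computation -/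

theorem exists_lift {B : Set X} (hB : Good T B) {R : ℤ} (hR : 0 ≤ R) (hsep : Sep T B (2 * R))
    (g : FG T) (hg : ∀ x, ∃ k : ℤ, |k| ≤ R ∧ g.1 x = (T ^ k) x) (c : ℤ → ℤ)
    (hc : ∀ a, |c a| ≤ R) (hgc : ∀ a, |a| ≤ R → ∀ z ∈ B, g.1 ((T ^ a) z) = (T ^ (a + c a)) z) :
    ∃ u : GB T B, piB hB u = g := by
  classical
  have hsepR : Sep T B R := hsep.mono (by omega)
  let L : ℤ → Line T B := fun a => if ha : |a| ≤ R then ⟨U T B a, U_isLine hB hsepR ha⟩
    else ⟨U T B 0, U_isLine hB hsepR (by simpa using hR)⟩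
  have hL : ∀ a, |a| ≤ R → (L a).1 = U T B a := by
    intro a ha
    simp only [L, dif_pos ha]
  let e : ℤ → ℤ := fun a => if a < 0 ∧ 0 ≤ a + c a then -1 else
    if 0 ≤ a ∧ a + c a < 0 then 1 else 0
  let s : Finset ℤ := Finset.Icc (-R) R
  have hs : ∀ a, a ∈ s ↔ |a| ≤ R := by
    intro a
    rw [Finset.mem_Icc, abs_le]
  have hLinj : ∀ a ∈ s, ∀ b ∈ s, L a = L b → a = b := by
    intro a ha b hb h
    by_contra hne
    rw [hs] at ha hb
    have h1 := U_disjoint hsep ha hb hne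
    rw [← hL a ha, ← hL b hb, h] at h1
    obtain ⟨z, hz⟩ := hB.nonempty
    obtain ⟨y, hy, -⟩ := (L b).2.ex z hz
    exact Set.disjoint_left.1 h1 hy hy
  obtain ⟨w, hw, hwe⟩ := exists_exponents (Γ := lineGraph T B) L s hLinj e
  set F : Set (Line T B) := {v | ∃ i ∈ s, v = L i} with hFdef
  have hFfam : F ⊆ fam T B R := by
    rintro v ⟨a, ha, rfl⟩
    exact ⟨a, (hs a).1 ha, hL a ((hs a).1 ha)⟩
  have hFd : ∀ v ∈ F, ∀ w ∈ F, v ≠ w → Disjoint v.1 w.1 := fun v hv w hw =>
    fam_disjoint hsep v (hFfam hv) w (hFfam hw)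
  have hmemS : g.1 * piV hB w ∈ SB T B := by
    refine ⟨Subgroup.mul_mem _ g.2 (piB hB (SemidirectProduct.inl w)).2, fun x => ?_⟩
    rw [Equiv.Perm.mul_apply]
    by_cases hx : ∃ a, |a| ≤ R ∧ x ∈ U T B a
    · obtain ⟨a, ha, hxa⟩ := hx
      have ha' := abs_le.1 ha
      have hca := abs_le.1 (hc a)
      have hxL : x ∈ (L a).1 := by rw [hL a ha]; exact hxa
      have h1 := piV_apply_of_mem hB hFd hw (L a) ⟨a, (hs a).2 ha, rfl⟩ x hxL
      rw [hwe a ((hs a).2 ha), toAdd_ofAdd] at h1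
      obtain ⟨z, hz, hxz⟩ := mem_U_iff.1 hxa
      by_cases hM : a < 0 ∧ 0 ≤ a + c a
      · have he : e a = -1 := by simp only [e, if_pos hM]
        rw [he, zpow_neg, zpow_one] at h1
        have hy := tauPerm_symm_mem hB (L a).2 hxL
        have hby := base_tauPerm_symm hB (L a).2 hxL
        have h2 : piV hB w x = (tauPerm hB (L a).2).symm x := h1
        rw [h2]
        have hyU : (tauPerm hB (L a).2).symm x ∈ U T B a := by rw [← hL a ha]; exact hy
        obtain ⟨z', hz', hyz⟩ := mem_U_iff.1 hyU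
        have hbx : base T B x = prv T B z := by
          rw [hxz]; exact base_T_neg hB hsepR hz hM.1 ha'.1
        have h3 : prv T B z' = prv T B (prv T B z) := by
          rw [← hbx, ← hby, hyz]
          exact (base_T_neg hB hsepR hz' hM.1 ha'.1).symm
        have h4 : z' = prv T B z := by
          have h5 : prv T B z ∈ B := hB.base_mem _
          rw [← hB.nxt_prv hz', h3, hB.nxt_prv h5]
        rw [hyz, hgc a ha z' hz', base_T_pos hB hsep hz' hM.2 (by omega), h4, hbx]
      · by_cases hL' : 0 ≤ a ∧ a + c a < 0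
        · have he : e a = 1 := by simp only [e, if_neg hM, if_pos hL']
          rw [he, zpow_one] at h1
          have hy := tauPerm_mem hB (L a).2 hxL
          have hby := base_tauPerm hB (L a).2 hxL
          rw [h1]
          have hyU : tauPerm hB (L a).2 x ∈ U T B a := by rw [← hL a ha]; exact hy
          obtain ⟨z', hz', hyz⟩ := mem_U_iff.1 hyU
          have hbx : base T B x = z := by
            rw [hxz]; exact base_T_pos hB hsepR hz hL'.1 ha'.2
          have h3 : z' = nxt T B z := by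
            rw [← base_T_pos hB hsepR hz' hL'.1 ha'.2, ← hyz, hby, ← hB.nxt_base x, hbx]
          rw [hyz, hgc a ha z' hz', base_T_neg hB hsep hz' hL'.2 (by omega), h3,
            hB.prv_nxt, base_of_mem hz, hbx]
        · have he : e a = 0 := by simp only [e, if_neg hM, if_neg hL']
          rw [he, zpow_zero] at h1
          have h2 : piV hB w x = x := h1
          rw [h2, hxz, hgc a ha z hz]
          by_cases h0 : 0 ≤ a
          · have h3 : 0 ≤ a + c a := by
              by_contra h4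
              exact hL' ⟨h0, by omega⟩
            rw [base_T_pos hB hsep hz h3 (by omega), base_T_pos hB hsep hz h0 (by omega)]
          · have h3 : a + c a < 0 := by
              by_contra h4
              exact hM ⟨by omega, by omega⟩
            rw [base_T_neg hB hsep hz h3 (by omega), base_T_neg hB hsep hz (by omega) (by omega)]
    · have h1 : piV hB w x = x := by
        refine piV_apply_of_not_mem hB hw x ?_
        rintro v hv hxv
        obtain ⟨a, ha, hva⟩ := hFfam hv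
        exact hx ⟨a, ha, by rw [← hva]; exact hxv⟩
      rw [h1]
      obtain ⟨k, hk, hgk⟩ := hg x
      have hk' := abs_le.1 hk
      rw [hgk]
      have h2 : ∀ i : ℤ, |i| ≤ R → (T ^ i) x ∉ B := by
        intro i hi hmem
        refine hx ⟨-i, by rwa [abs_neg], ?_⟩
        rw [mem_U, neg_neg]
        exact hmem
      by_cases hk0 : 0 ≤ k
      · exact base_zpow_nonneg hB hk0 x (fun i hi hi' => h2 i (abs_le.2 ⟨by omega, by omega⟩))
      · exact base_zpow_nonpos hB (by omega) x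
          (fun i hi hi' => h2 i (abs_le.2 ⟨by omega, by omega⟩))
  refine ⟨SemidirectProduct.inr ⟨_, hmemS⟩ * (SemidirectProduct.inl w)⁻¹, ?_⟩
  apply Subtype.ext
  rw [map_mul, map_inv, piB_inr]
  change (g.1 * piV hB w) * (piV hB w)⁻¹ = g.1
  group

end Pool.Agent.helper66.FJT
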